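import Pool.Agent.Lib_helper17.KR.Val
import Pool.Agent.Lib_helper17.RS.P_UP1

/-!
# Kummer extensions: the number of ramified places
-/

set_option autoImplicit false
set_option linter.unusedSectionVars false

namespace Pool.Agent.KR

open Pool.Agent.RSK NumberField IsDedekindDomain

variable {F H : Type} [Field F] [NumberField F] [Field H] [NumberField H] [Algebra F H]
  {G : Type} [CommGroup G] [Fintype G]

theorem exists_W (H : Type) [Field H] [NumberField H] [Algebra F H]
    (v : HeightOneSpectrum (𝓞 F)) : ∃ W : HeightOneSpectrum (𝓞 H), W.under (𝓞 F) = v :=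
  up1_surj (H := H) v

theorem count [IsGalois F H] {q : ℕ} [NeZero q] (hq : 2 ≤ q) [IsCyclotomicExtension {q} ℚ F]
    {ι : G ≃* (H ≃ₐ[F] H)} {S T : Finset (HeightOneSpectrum (𝓞 F))} {r : ℕ} {w : Fin r → Pl H}
    {fr : HeightOneSpectrum (𝓞 F) → G} (hD : Data ι S T r w fr) {a : ℤ} {b : H}
    (hb : b ^ q = (a : H)) {s : Finset ℕ}
    (hs : ∀ l ∈ s, l.Prime ∧ ¬ l ∣ q ∧ (l : ℤ) ∣ a ∧ ¬ (l : ℤ) ^ 2 ∣ a) :
    r + s.card ≤ Fintype.card (InfinitePlace F) + S.card := by
  classical
  have hb' : b ^ q = algebraMap F H ((a : ℤ) : F) := by rw [hb, map_intCast]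
  have : Nonempty (HeightOneSpectrum (𝓞 F)) := ⟨(exists_above F Nat.prime_two).choose⟩
  choose! v hv using fun (l : ℕ) (hl : l.Prime) => exists_above F hl
  have hord : ∀ l ∈ s, ordv (v l) ((a : ℤ) : F) = 1 := fun l hl =>
    ordv_one_of (hs l hl).1 (hs l hl).2.1 (hv l (hs l hl).1) (hs l hl).2.2.1 (hs l hl).2.2.2
  have hram : ∀ l ∈ s, ∀ W : HeightOneSpectrum (𝓞 H), W.under (𝓞 F) = v l →
      ¬ Algebra.IsUnramifiedAt (𝓞 F) W.asIdeal := fun l hl W hW =>
    root_ram hq hb' (by rw [hW]; exact hord l hl)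
  have hvS : ∀ l ∈ s, v l ∈ S := by
    intro l hl
    by_contra hS
    obtain ⟨W, hW⟩ := exists_W H (v l)
    exact hram l hl W hW (hD.unram W (by rw [hW]; exact hS))
  have hmem : ∀ i, ∃ P : PS S, P.pl = dn F (w i) := by
    intro i
    have h := hD.mem i
    rcases hdn : dn F (w i) with x | x
    · exact ⟨Sum.inl x, rfl⟩
    · rw [hdn] at h
      exact ⟨Sum.inr ⟨x, h⟩, rfl⟩
  choose P hP using hmem
  let g : Fin r ⊕ s → PS S := Sum.elim P fun l => Sum.inr ⟨v l.1, hvS l.1 l.2⟩
  have hg : Function.Injective g := by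
    rintro (i | l) (j | m) h
    · have h1 : dn F (w i) = dn F (w j) := by
        rw [← hP, ← hP]
        exact congrArg PS.pl h
      rw [hD.inj i j h1]
    · exfalso
      have h1 : dn F (w i) = Sum.inr (v m.1) := by
        rw [← hP]
        exact congrArg PS.pl h
      rcases hw : w i with x | x
      · rw [hw] at h1
        simp [dn] at h1
      · rw [hw] at h1
        have h2 : x.under (𝓞 F) = v m.1 := Sum.inr.inj h1
        refine hram m.1 m.2 x h2 (unr_of_split fun σ hσ => hD.split i σ ?_)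
        rw [hw]
        exact hσ
    · exfalso
      have h1 : dn F (w j) = Sum.inr (v l.1) := by
        rw [← hP]
        exact congrArg PS.pl h.symm
      rcases hw : w j with x | x
      · rw [hw] at h1
        simp [dn] at h1
      · rw [hw] at h1
        have h2 : x.under (𝓞 F) = v l.1 := Sum.inr.inj h1
        refine hram l.1 l.2 x h2 (unr_of_split fun σ hσ => hD.split j σ ?_)
        rw [hw]
        exact hσ
    · have h1 : v l.1 = v m.1 := by
        have := congrArg PS.pl h
        exact Sum.inr.inj this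
      have hl := hs l.1 l.2
      have hm := hs m.1 m.2
      congr 1
      apply Subtype.ext
      by_contra hne
      have hcop : IsCoprime (l.1 : ℤ) (m.1 : ℤ) :=
        Nat.isCoprime_iff_coprime.2 ((Nat.coprime_primes hl.1 hm.1).2 hne)
      obtain ⟨x, y, hxy⟩ := hcop
      apply (v l.1).isPrime.ne_top
      rw [Ideal.eq_top_iff_one]
      have h3 : ((x * l.1 + y * m.1 : ℤ) : 𝓞 F) ∈ (v l.1).asIdeal := by
        push_cast
        refine (v l.1).asIdeal.add_mem ((v l.1).asIdeal.mul_mem_left _ (hv _ hl.1))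
          ((v l.1).asIdeal.mul_mem_left _ ?_)
        rw [h1]
        exact hv _ hm.1
      rw [hxy] at h3
      simpa using h3
  have := Fintype.card_le_of_injective g hg
  simpa [PS] using this

end Pool.Agent.KR
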