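import Pool.Agent.Lib_helper17.KR.Alg

/-!
# Kummer extensions: the degree
-/

set_option autoImplicit false
set_option linter.unusedSectionVars false

namespace Pool.Agent.KR

open Pool.Agent.RSK NumberField IsDedekindDomain

section Deg

variable {F H : Type} [Field F] [NumberField F] [Field H] [NumberField H] [Algebra F H]

theorem ordv_prod {ι : Type} (s : Finset ι) (v : HeightOneSpectrum (𝓞 F)) (x : ι → F)
    (hx : ∀ i ∈ s, x i ≠ 0) : ordv v (∏ i ∈ s, x i) = ∑ i ∈ s, ordv v (x i) := by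
  classical
  induction s using Finset.induction_on with
  | empty => simp [ordv_one]
  | insert i s hi ih =>
    have h1 : x i ≠ 0 := hx i (Finset.mem_insert_self i s)
    have h2 : ∏ i ∈ s, x i ≠ 0 :=
      Finset.prod_ne_zero_iff.2 fun j hj => hx j (Finset.mem_insert_of_mem hj)
    have h := ordv_mul v (Units.mk0 _ h1) (Units.mk0 _ h2)
    rw [Units.val_mul, Units.val_mk0, Units.val_mk0] at h
    rw [Finset.prod_insert hi, Finset.sum_insert hi, h,
      ih fun j hj => hx j (Finset.mem_insert_of_mem hj)]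

theorem deg_ge [IsGalois F H] {q k : ℕ} (hq : 0 < q) {a : Fin k → F} (ha : ∀ i, a i ≠ 0)
    {b : Fin k → H} (hb : ∀ i, b i ^ q = algebraMap F H (a i))
    {κ : (H ≃ₐ[F] H) →* (Fin k → rootsOfUnity q F)}
    (hκ : ∀ (σ : H ≃ₐ[F] H) (i : Fin k), σ (b i) = algebraMap F H ((κ σ i : Fˣ) : F) * b i)
    (hv : ∀ i, ∃ v : HeightOneSpectrum (𝓞 F), ordv v (a i) = 1 ∧ ∀ j, j ≠ i → ordv v (a j) = 0) :
    q ^ k ≤ Module.finrank F H := by
  classical
  have hb0 : ∀ i, b i ≠ 0 := by
    intro i h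
    have := hb i
    rw [h, zero_pow hq.ne'] at this
    exact ha i ((map_eq_zero _).1 this.symm)
  let φ : (Fin k → Fin q) → ((H ≃ₐ[F] H) →* F) := fun c =>
    { toFun := fun σ => ∏ i, ((κ σ i : Fˣ) : F) ^ (c i : ℕ)
      map_one' := by simp
      map_mul' := fun σ τ => by
        rw [map_mul, ← Finset.prod_mul_distrib]
        refine Finset.prod_congr rfl fun i _ => ?_
        rw [Pi.mul_apply, ← mul_pow]
        rfl }
  have hφ : Function.Injective φ := by
    intro c c' hcc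
    have h1 : ∀ σ : H ≃ₐ[F] H, ∀ c : Fin k → Fin q,
        σ (∏ i, b i ^ (c i : ℕ)) = algebraMap F H (φ c σ) * ∏ i, b i ^ (c i : ℕ) := by
      intro σ c
      show σ (∏ i, b i ^ (c i : ℕ)) = algebraMap F H (∏ i, ((κ σ i : Fˣ) : F) ^ (c i : ℕ)) * _
      rw [map_prod, map_prod, ← Finset.prod_mul_distrib]
      refine Finset.prod_congr rfl fun i _ => ?_
      rw [map_pow, hκ, mul_pow, map_pow]
    set X := ∏ i, b i ^ (c i : ℕ) with hX
    set Y := ∏ i, b i ^ (c' i : ℕ) with hY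
    have hX0 : X ≠ 0 := Finset.prod_ne_zero_iff.2 fun i _ => pow_ne_zero _ (hb0 i)
    have hY0 : Y ≠ 0 := Finset.prod_ne_zero_iff.2 fun i _ => pow_ne_zero _ (hb0 i)
    have hfix : ∀ σ : H ≃ₐ[F] H, σ (X / Y) = X / Y := by
      intro σ
      rw [map_div₀, hX, hY, h1 σ c, h1 σ c', ← hX, ← hY, hcc]
      have hne : algebraMap F H (φ c' σ) ≠ 0 := by
        rw [map_ne_zero]
        show (∏ i, ((κ σ i : Fˣ) : F) ^ (c' i : ℕ)) ≠ 0
        exact Finset.prod_ne_zero_iff.2 fun i _ => pow_ne_zero _ (Units.ne_zero _)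
      rw [mul_div_mul_left _ _ hne]
    obtain ⟨t, ht⟩ : ∃ t : F, algebraMap F H t = X / Y := by
      have := (IsGalois.mem_bot_iff_fixed (F := F) (X / Y)).2 hfix
      exact IntermediateField.mem_bot.1 this
    have ht0 : t ≠ 0 := by
      rintro rfl
      rw [map_zero] at ht
      exact div_ne_zero hX0 hY0 ht.symm
    have h2 : ∏ i, a i ^ (c i : ℕ) = t ^ q * ∏ i, a i ^ (c' i : ℕ) := by
      apply (algebraMap F H).injective
      have hXq : ∀ c : Fin k → Fin q, algebraMap F H (∏ i, a i ^ (c i : ℕ)) =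
          (∏ i, b i ^ (c i : ℕ)) ^ q := by
        intro c
        rw [map_prod, ← Finset.prod_pow]
        refine Finset.prod_congr rfl fun i _ => ?_
        rw [map_pow, ← hb, ← pow_mul, ← pow_mul, mul_comm]
      rw [map_mul, map_pow, hXq, hXq, ht, ← hX, ← hY, div_pow,
        div_mul_cancel₀ _ (pow_ne_zero _ hY0)]
    funext i
    obtain ⟨v, hv1, hv2⟩ := hv i
    have h3 := congrArg (ordv v) h2
    have hsum : ∀ c : Fin k → Fin q, ordv v (∏ i, a i ^ (c i : ℕ)) = (c i : ℕ) := by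
      intro c
      rw [ordv_prod _ v _ fun j _ => pow_ne_zero _ (ha j)]
      rw [Finset.sum_eq_single i]
      · rw [ordv_pow v (ha i), hv1, mul_one]
      · intro j _ hj
        rw [ordv_pow v (ha j), hv2 j hj, mul_zero]
      · intro h
        exact absurd (Finset.mem_univ i) h
    have hmul := ordv_mul v (Units.mk0 _ (pow_ne_zero q ht0))
      (Units.mk0 (∏ i, a i ^ (c' i : ℕ)) (Finset.prod_ne_zero_iff.2 fun j _ => pow_ne_zero _ (ha j)))
    rw [Units.val_mul, Units.val_mk0, Units.val_mk0] at hmul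
    rw [hmul, hsum, hsum, ordv_pow v ht0] at h3
    have h4 : (c i : ℕ) ≡ (c' i : ℕ) [MOD q] := by
      rw [← Int.natCast_modEq_iff, Int.modEq_iff_dvd]
      exact ⟨-ordv v t, by rw [h3]; ring⟩
    exact Fin.ext (Nat.ModEq.eq_of_lt_of_lt h4 (c i).2 (c' i).2)
  have hli := (linearIndependent_monoidHom (H ≃ₐ[F] H) F).comp φ hφ
  have h5 := hli.fintype_card_le_finrank
  rw [Module.finrank_fintype_fun_eq_card, ← Nat.card_eq_fintype_card (α := (H ≃ₐ[F] H)),
    IsGalois.card_aut_eq_finrank F H, Fintype.card_fun, Fintype.card_fin, Fintype.card_fin] at h5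
  exact h5

theorem kap_card_le {q k : ℕ} (hq : 0 < q) {κ : (H ≃ₐ[F] H) →* (Fin k → rootsOfUnity q F)}
    (hκ : Function.Injective κ) : Nat.card (H ≃ₐ[F] H) ≤ q ^ k := by
  have : NeZero q := ⟨hq.ne'⟩
  have h1 := Nat.card_le_card_of_injective κ hκ
  refine h1.trans ?_
  rw [Nat.card_fun, Nat.card_fin]
  exact Nat.pow_le_pow_left (card_rootsOfUnity F q) k

theorem kap_exp {q k : ℕ} {κ : (H ≃ₐ[F] H) →* (Fin k → rootsOfUnity q F)}
    (hκ : Function.Injective κ) (σ : H ≃ₐ[F] H) : σ ^ q = 1 := by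
  apply hκ
  rw [map_pow, map_one]
  funext i
  rw [Pi.pow_apply, Pi.one_apply]
  exact Subtype.ext ((mem_rootsOfUnity q _).1 (κ σ i).2)

end Deg

end Pool.Agent.KR
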