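import Mathlib

/-!
# Almost all tuples of integers have many private simple prime factors
-/

set_option autoImplicit false
set_option linter.unusedSectionVars false

namespace Pool.Agent.KR

open Finset

/-- `l` divides `a_i` exactly once and no other `a_j` -/
def EvI {k : ℕ} (i : Fin k) (l : ℕ) (a : Fin k → ℤ) : Prop :=
  (l : ℤ) ∣ a i ∧ ¬ (l : ℤ) ^ 2 ∣ a i ∧ ∀ j, j ≠ i → ¬ (l : ℤ) ∣ a j

/-- the same for residue classes modulo `l ^ 2` -/
def EvZ {k : ℕ} (i : Fin k) (l : ℕ) (y : Fin k → ZMod (l ^ 2)) : Prop :=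
  ∀ j, if j = i then (l ∣ (y j).val ∧ y j ≠ 0) else ¬ l ∣ (y j).val

theorem evI_iff {k : ℕ} (i : Fin k) {l : ℕ} (hl : l.Prime) (a : Fin k → ℤ) :
    EvI i l a ↔ EvZ i l (fun j => ((a j : ℤ) : ZMod (l ^ 2))) := by
  have : NeZero (l ^ 2) := ⟨pow_ne_zero 2 hl.ne_zero⟩
  have h1 : ∀ z : ℤ, l ∣ ((z : ℤ) : ZMod (l ^ 2)).val ↔ (l : ℤ) ∣ z := by
    intro z
    have h0 : (l : ℤ) ∣ ((l ^ 2 : ℕ) : ℤ) := by
      push_cast
      exact dvd_pow_self _ two_ne_zero
    rw [← Int.natCast_dvd_natCast, ZMod.val_intCast, Int.dvd_iff_emod_eq_zero,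
      Int.emod_emod_of_dvd _ h0, ← Int.dvd_iff_emod_eq_zero]
  have h2 : ∀ z : ℤ, ((z : ℤ) : ZMod (l ^ 2)) = 0 ↔ (l : ℤ) ^ 2 ∣ z := by
    intro z
    rw [ZMod.intCast_zmod_eq_zero_iff_dvd]
    push_cast
    exact Iff.rfl
  constructor
  · rintro ⟨h3, h4, h5⟩ j
    by_cases hj : j = i
    · subst hj
      rw [if_pos rfl]
      exact ⟨(h1 _).2 h3, fun h => h4 ((h2 _).1 h)⟩
    · rw [if_neg hj]
      exact fun h => h5 j hj ((h1 _).1 h)
  · intro h
    refine ⟨?_, ?_, fun j hj hd => ?_⟩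
    · have := h i
      rw [if_pos rfl] at this
      exact (h1 _).1 this.1
    · have := h i
      rw [if_pos rfl] at this
      exact fun hd => this.2 ((h2 _).2 hd)
    · have := h j
      rw [if_neg hj] at this
      exact this ((h1 _).2 hd)

theorem card_dvd {l : ℕ} (hl : l.Prime) [NeZero (l ^ 2)] :
    (univ.filter fun z : ZMod (l ^ 2) => l ∣ z.val).card = l := by
  have h1 : (univ.filter fun z : ZMod (l ^ 2) => l ∣ z.val).card =
      ((range (l ^ 2)).filter fun n => l ∣ n).card := by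
    refine card_bij (fun z _ => z.val) ?_ ?_ ?_
    · intro z hz
      rw [mem_filter] at hz ⊢
      exact ⟨mem_range.2 (ZMod.val_lt z), hz.2⟩
    · intro z _ z' _ h
      exact ZMod.val_injective _ h
    · intro n hn
      rw [mem_filter, mem_range] at hn
      refine ⟨(n : ZMod (l ^ 2)), ?_, ZMod.val_cast_of_lt hn.1⟩
      rw [mem_filter, ZMod.val_cast_of_lt hn.1]
      exact ⟨mem_univ _, hn.2⟩
  rw [h1]
  have h2 : ((range (l ^ 2)).filter fun n => l ∣ n) = (range l).image (fun m => l * m) := by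
    ext n
    rw [mem_filter, mem_range, mem_image]
    constructor
    · rintro ⟨h3, m, rfl⟩
      refine ⟨m, mem_range.2 ?_, rfl⟩
      rw [sq] at h3
      exact Nat.lt_of_mul_lt_mul_left h3
    · rintro ⟨m, hm, rfl⟩
      rw [mem_range] at hm
      refine ⟨?_, dvd_mul_right _ _⟩
      rw [sq]
      exact Nat.mul_lt_mul_of_pos_left hm hl.pos
  rw [h2, card_image_of_injective _ (fun a b h => Nat.eq_of_mul_eq_mul_left hl.pos h), card_range]

open scoped Classical in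
theorem card_ev {k : ℕ} (i : Fin k) {l : ℕ} (hl : l.Prime) [NeZero (l ^ 2)] :
    (((l : ℝ) ^ 2) ^ k) * ((2 : ℝ)⁻¹ ^ k / l) ≤
      ((univ.filter fun y : Fin k → ZMod (l ^ 2) => EvZ i l y).card : ℝ) := by
  have h1 : (univ.filter fun y : Fin k → ZMod (l ^ 2) => EvZ i l y) =
      Fintype.piFinset fun j : Fin k => univ.filter fun z : ZMod (l ^ 2) =>
        if j = i then (l ∣ z.val ∧ z ≠ 0) else ¬ l ∣ z.val := by
    ext y
    rw [mem_filter, Fintype.mem_piFinset]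
    simp only [mem_filter, mem_univ, true_and]
    exact Iff.rfl
  rw [h1, Fintype.card_piFinset]
  push_cast
  have hl0 : (0 : ℝ) < l := by exact_mod_cast hl.pos
  have hl2 : (2 : ℝ) ≤ l := by exact_mod_cast hl.two_le
  have hA : ∀ j : Fin k, ((l : ℝ) ^ 2) * (2 : ℝ)⁻¹ * (if j = i then (l : ℝ)⁻¹ else 1) ≤
      ((univ.filter fun z : ZMod (l ^ 2) =>
        if j = i then (l ∣ z.val ∧ z ≠ 0) else ¬ l ∣ z.val).card : ℝ) := by
    intro j
    by_cases hj : j = i
    · simp only [hj, if_true]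
      have h2 : (univ.filter fun z : ZMod (l ^ 2) => l ∣ z.val ∧ z ≠ 0) =
          (univ.filter fun z : ZMod (l ^ 2) => l ∣ z.val).erase 0 := by
        ext z
        rw [mem_filter, mem_erase, mem_filter]
        tauto
      rw [h2, card_erase_of_mem (by simp), card_dvd hl, Nat.cast_sub hl.one_le, Nat.cast_one]
      have : (l : ℝ) ^ 2 * (2 : ℝ)⁻¹ * (l : ℝ)⁻¹ = l / 2 := by
        field_simp
      rw [this]
      linarith
    · simp only [hj, if_false]
      have h2 : (univ.filter fun z : ZMod (l ^ 2) => ¬ l ∣ z.val).card = l ^ 2 - l := by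
        have h3 := card_filter_add_card_filter_not (s := (univ : Finset (ZMod (l ^ 2))))
          (p := fun z => l ∣ z.val)
        rw [card_dvd hl, card_univ, ZMod.card] at h3
        omega
      rw [h2, Nat.cast_sub (by rw [sq]; exact Nat.le_mul_of_pos_left l hl.pos)]
      push_cast
      nlinarith
  refine le_trans (le_of_eq ?_) (prod_le_prod (fun j _ => by positivity) fun j _ => hA j)
  rw [prod_mul_distrib, prod_const, card_univ, Fintype.card_fin, prod_ite_eq' univ i fun _ => (l : ℝ)⁻¹,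
    if_pos (mem_univ i), mul_pow, div_eq_mul_inv]
  ring

/-! ## The exponential moment -/

section Mom

open scoped Classical in
/-- the weight of a residue class -/
noncomputable def wt {k : ℕ} (i : Fin k) (l : ℕ) (y : Fin k → ZMod (l ^ 2)) : ℝ :=
  if EvZ i l y then 2⁻¹ else 1

theorem wt_nonneg {k : ℕ} (i : Fin k) (l : ℕ) (y : Fin k → ZMod (l ^ 2)) : 0 ≤ wt i l y := by
  unfold wt
  split_ifs <;> norm_num

theorem sum_wt {k : ℕ} (i : Fin k) {l : ℕ} (hl : l.Prime) [NeZero (l ^ 2)] :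
    ∑ y : Fin k → ZMod (l ^ 2), wt i l y ≤
      (((l : ℝ) ^ 2) ^ k) * Real.exp (-(2⁻¹ ^ (k + 1) / l)) := by
  classical
  have h1 : ∀ y : Fin k → ZMod (l ^ 2), wt i l y = 1 - 2⁻¹ * (if EvZ i l y then (1 : ℝ) else 0) := by
    intro y
    unfold wt
    split_ifs <;> norm_num
  rw [sum_congr rfl fun y _ => h1 y, sum_sub_distrib, ← mul_sum, sum_boole]
  have h2 := card_ev i hl
  have h3 : ∑ _y : Fin k → ZMod (l ^ 2), (1 : ℝ) = ((l : ℝ) ^ 2) ^ k := by
    simp [ZMod.card]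
  rw [h3]
  have hl0 : (0 : ℝ) < l := by exact_mod_cast hl.pos
  have h4 : 1 - 2⁻¹ ^ (k + 1) / (l : ℝ) ≤ Real.exp (-(2⁻¹ ^ (k + 1) / l)) := by
    have := Real.add_one_le_exp (-(2⁻¹ ^ (k + 1) / (l : ℝ)))
    linarith
  calc ((l : ℝ) ^ 2) ^ k - 2⁻¹ * ((univ.filter fun y : Fin k → ZMod (l ^ 2) => EvZ i l y).card : ℝ)
      ≤ ((l : ℝ) ^ 2) ^ k - 2⁻¹ * ((((l : ℝ) ^ 2) ^ k) * ((2 : ℝ)⁻¹ ^ k / l)) := by
        gcongr
    _ = ((l : ℝ) ^ 2) ^ k * (1 - 2⁻¹ ^ (k + 1) / (l : ℝ)) := by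
        rw [pow_succ]
        ring
    _ ≤ _ := by gcongr

variable {k : ℕ}

/-- The residue classes of the coordinates modulo the squares of the primes in `P`. -/
def cls (P : Finset ℕ) (a : Fin k → ℤ) : (l : P) → Fin k → ZMod ((l : ℕ) ^ 2) :=
  fun _ j => ((a j : ℤ) : ZMod _)

theorem fiber_card {P : Finset ℕ} (hP : ∀ l ∈ P, l.Prime) (X : ℕ)
    (c : (l : P) → Fin k → ZMod ((l : ℕ) ^ 2)) :
    ((Fintype.piFinset fun _ : Fin k => Icc (-(X : ℤ)) X).filter fun a => cls P a = c).card ≤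
      ((2 * X) / (∏ l ∈ P, l ^ 2) + 1) ^ k := by
  classical
  set M := ∏ l ∈ P, l ^ 2 with hM
  have hM0 : 0 < M := prod_pos fun l hl => pow_pos (hP l hl).pos 2
  have h1 : ((Fintype.piFinset fun _ : Fin k => Icc (-(X : ℤ)) X).filter fun a => cls P a = c) ⊆
      Fintype.piFinset fun j : Fin k => (Icc (-(X : ℤ)) X).filter fun z =>
        ∀ l : P, ((z : ℤ) : ZMod ((l : ℕ) ^ 2)) = c l j := by
    intro a ha
    rw [mem_filter, Fintype.mem_piFinset] at ha
    rw [Fintype.mem_piFinset]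
    intro j
    rw [mem_filter]
    exact ⟨ha.1 j, fun l => by rw [← ha.2]; rfl⟩
  refine (card_le_card h1).trans ?_
  rw [Fintype.card_piFinset]
  refine (prod_le_pow_card _ _ ((2 * X) / M + 1) fun j _ => ?_).trans (by simp)
  have h2 : ((Icc (-(X : ℤ)) X).filter fun z => ∀ l : P, ((z : ℤ) : ZMod ((l : ℕ) ^ 2)) = c l j).card ≤
      (range ((2 * X) / M + 1)).card := by
    refine card_le_card_of_injOn (fun z => ((z + X) / (M : ℤ)).toNat) ?_ ?_
    · intro z hz
      rw [mem_coe, mem_filter, mem_Icc] at hz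
      rw [mem_coe, mem_range]
      have h3 : 0 ≤ (z + X) / (M : ℤ) := Int.ediv_nonneg (by linarith [hz.1.1]) (by positivity)
      have h4 : (z + X) / (M : ℤ) ≤ (2 * X : ℤ) / M :=
        Int.ediv_le_ediv (by exact_mod_cast hM0) (by linarith [hz.1.2])
      have h5 : (((2 * X) / M : ℕ) : ℤ) = (2 * X : ℤ) / M := by push_cast; rfl
      show ((z + X) / (M : ℤ)).toNat < _
      omega
    · intro z hz z' hz' h
      rw [mem_coe, mem_filter, mem_Icc] at hz hz'
      have h3 : 0 ≤ (z + X) / (M : ℤ) := Int.ediv_nonneg (by linarith [hz.1.1]) (by positivity)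
      have h3' : 0 ≤ (z' + X) / (M : ℤ) := Int.ediv_nonneg (by linarith [hz'.1.1]) (by positivity)
      have h4 : (z + X) / (M : ℤ) = (z' + X) / (M : ℤ) := by
        have : ((z + X) / (M : ℤ)).toNat = ((z' + X) / (M : ℤ)).toNat := h
        omega
      have h5 : (M : ℤ) ∣ (z + X) - (z' + X) := by
        rw [hM]
        push_cast
        refine Finset.prod_dvd_of_coprime (fun l hl l' hl' hne => ?_) fun l hl => ?_
        · exact (Nat.isCoprime_iff_coprime.2
            ((Nat.coprime_primes (hP l hl) (hP l' hl')).2 hne)).pow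
        · have h6 := (hz.2 ⟨l, hl⟩).trans (hz'.2 ⟨l, hl⟩).symm
          have h7 : (((z - z' : ℤ)) : ZMod (l ^ 2)) = 0 := by
            push_cast
            exact sub_eq_zero.2 h6
          rw [ZMod.intCast_zmod_eq_zero_iff_dvd] at h7
          push_cast at h7
          have e : z + X - (z' + X) = z - z' := by ring
          rwa [e]
      have h6 : (z + X) % (M : ℤ) = (z' + X) % (M : ℤ) := (Int.modEq_iff_dvd.2 h5).symm
      have h7 := Int.emod_add_mul_ediv (z + X) M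
      have h8 := Int.emod_add_mul_ediv (z' + X) M
      rw [h6, h4] at h7
      linarith
  rwa [card_range] at h2

theorem sum_box {P : Finset ℕ} (hP : ∀ l ∈ P, l.Prime) (X : ℕ) (i : Fin k) :
    ∑ a ∈ Fintype.piFinset (fun _ : Fin k => Icc (-(X : ℤ)) X), ∏ l : P, wt i l (cls P a l) ≤
      (((2 * X) / (∏ l ∈ P, l ^ 2) + 1 : ℕ) : ℝ) ^ k *
        ((((∏ l ∈ P, l ^ 2 : ℕ) : ℝ)) ^ k * Real.exp (-(2⁻¹ ^ (k + 1) * ∑ l ∈ P, (l : ℝ)⁻¹))) := by
  classical
  have : ∀ l : P, NeZero ((l : ℕ) ^ 2) := fun l => ⟨pow_ne_zero 2 (hP l.1 l.2).ne_zero⟩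
  have h1 : ∑ a ∈ Fintype.piFinset (fun _ : Fin k => Icc (-(X : ℤ)) X),
      ∏ l : P, wt i l (cls P a l) =
      ∑ c : ((l : P) → Fin k → ZMod ((l : ℕ) ^ 2)),
        (((Fintype.piFinset fun _ : Fin k => Icc (-(X : ℤ)) X).filter
          fun a => cls P a = c).card : ℝ) * ∏ l : P, wt i l (c l) := by
    rw [← sum_fiberwise (Fintype.piFinset fun _ : Fin k => Icc (-(X : ℤ)) X) (fun a => cls P a)]
    refine sum_congr rfl fun c _ => ?_
    rw [← nsmul_eq_mul, ← sum_const]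
    refine sum_congr rfl fun a ha => ?_
    rw [(mem_filter.1 ha).2]
  rw [h1]
  have h2 : ∑ c : ((l : P) → Fin k → ZMod ((l : ℕ) ^ 2)), ∏ l : P, wt i l (c l) =
      ∏ l : P, ∑ y : Fin k → ZMod ((l : ℕ) ^ 2), wt i l y := by
    rw [prod_univ_sum]
    simp
  have h3 : ∏ l : P, ∑ y : Fin k → ZMod ((l : ℕ) ^ 2), wt i l y ≤
      (((∏ l ∈ P, l ^ 2 : ℕ) : ℝ)) ^ k * Real.exp (-(2⁻¹ ^ (k + 1) * ∑ l ∈ P, (l : ℝ)⁻¹)) := by
    calc ∏ l : P, ∑ y : Fin k → ZMod ((l : ℕ) ^ 2), wt i l y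
        ≤ ∏ l : P, ((((l : ℕ) : ℝ) ^ 2) ^ k * Real.exp (-(2⁻¹ ^ (k + 1) / ((l : ℕ) : ℝ)))) :=
          prod_le_prod (fun l _ => sum_nonneg fun y _ => wt_nonneg i l y)
            fun l _ => sum_wt i (hP l.1 l.2)
      _ = ∏ l ∈ P, (((l : ℝ) ^ 2) ^ k * Real.exp (-(2⁻¹ ^ (k + 1) / (l : ℝ)))) :=
          prod_coe_sort P fun l => (((l : ℝ) ^ 2) ^ k * Real.exp (-(2⁻¹ ^ (k + 1) / (l : ℝ))))
      _ = _ := by
          rw [prod_mul_distrib, prod_pow, ← Real.exp_sum]
          push_cast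
          congr 2
          rw [sum_neg_distrib, mul_sum]
          rfl
  calc ∑ c : ((l : P) → Fin k → ZMod ((l : ℕ) ^ 2)),
        (((Fintype.piFinset fun _ : Fin k => Icc (-(X : ℤ)) X).filter
          fun a => cls P a = c).card : ℝ) * ∏ l : P, wt i l (c l)
      ≤ ∑ c : ((l : P) → Fin k → ZMod ((l : ℕ) ^ 2)),
        (((2 * X) / (∏ l ∈ P, l ^ 2) + 1 : ℕ) : ℝ) ^ k * ∏ l : P, wt i l (c l) := by
        refine sum_le_sum fun c _ => mul_le_mul_of_nonneg_right ?_
          (prod_nonneg fun l _ => wt_nonneg i l _)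
        exact_mod_cast fiber_card hP X c
    _ = (((2 * X) / (∏ l ∈ P, l ^ 2) + 1 : ℕ) : ℝ) ^ k *
        ∏ l : P, ∑ y : Fin k → ZMod ((l : ℕ) ^ 2), wt i l y := by
        rw [← mul_sum, h2]
    _ ≤ _ := mul_le_mul_of_nonneg_left h3 (by positivity)

end Mom

/-! ## The density theorem -/

/-- For every `i`, more than `N` primes `l ∤ q` divide `a_i` exactly once and no `a_j`, `j ≠ i`. -/
def Gd (q N : ℕ) {k : ℕ} (a : Fin k → ℤ) : Prop :=
  ∀ i, ∃ s : Finset ℕ, N < s.card ∧ ∀ l ∈ s, l.Prime ∧ ¬ l ∣ q ∧ (l : ℤ) ∣ a i ∧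
    ¬ (l : ℤ) ^ 2 ∣ a i ∧ ∀ j, j ≠ i → ¬ (l : ℤ) ∣ a j

theorem exists_primes {q : ℕ} (hq : 0 < q) (C : ℝ) : ∃ P : Finset ℕ,
    (∀ l ∈ P, l.Prime ∧ ¬ l ∣ q) ∧ C ≤ ∑ l ∈ P, (l : ℝ)⁻¹ := by
  by_contra hcon
  push Not at hcon
  apply Nat.Primes.not_summable_one_div
  have h1 : ∀ u : Finset Nat.Primes, ∑ p ∈ u, (1 / (p : ℝ)) ≤ C + q := by
    intro u
    classical
    have h2 := hcon ((u.image fun p : Nat.Primes => (p : ℕ)).filter fun l => ¬ l ∣ q) (by
      intro l hl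
      rw [mem_filter, mem_image] at hl
      obtain ⟨⟨p, _, rfl⟩, h⟩ := hl
      exact ⟨p.2, h⟩)
    have h3 : ∑ p ∈ u, (1 / (p : ℝ)) = ∑ l ∈ u.image fun p : Nat.Primes => (p : ℕ), (l : ℝ)⁻¹ := by
      have h4 : Set.InjOn (fun p : Nat.Primes => (p : ℕ)) (u : Set Nat.Primes) :=
        fun a _ b _ h => Subtype.ext h
      rw [sum_image h4]
      exact sum_congr rfl fun p _ => one_div _
    rw [h3, ← sum_filter_add_sum_filter_not _ fun l => ¬ l ∣ q]
    have h4 : ∑ l ∈ (u.image fun p : Nat.Primes => (p : ℕ)).filter (fun l => ¬ ¬ l ∣ q),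
        (l : ℝ)⁻¹ ≤ q := by
      calc ∑ l ∈ (u.image fun p : Nat.Primes => (p : ℕ)).filter (fun l => ¬ ¬ l ∣ q), (l : ℝ)⁻¹
          ≤ ∑ _l ∈ (u.image fun p : Nat.Primes => (p : ℕ)).filter (fun l => ¬ ¬ l ∣ q),
            (1 : ℝ) := by
            refine sum_le_sum fun l hl => ?_
            rw [mem_filter, mem_image] at hl
            obtain ⟨⟨p, _, rfl⟩, _⟩ := hl
            have : (1 : ℝ) ≤ (p : ℕ) := by exact_mod_cast p.2.one_le
            exact inv_le_one_of_one_le₀ this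
        _ = (((u.image fun p : Nat.Primes => (p : ℕ)).filter (fun l => ¬ ¬ l ∣ q)).card : ℝ) := by
            simp
        _ ≤ q := by
            have h5 : (u.image fun p : Nat.Primes => (p : ℕ)).filter (fun l => ¬ ¬ l ∣ q) ⊆
                (Icc 1 q) := by
              intro l hl
              rw [mem_filter, mem_image, not_not] at hl
              obtain ⟨⟨p, _, rfl⟩, h⟩ := hl
              exact mem_Icc.2 ⟨p.2.one_le, Nat.le_of_dvd hq h⟩
            have h6 := card_le_card h5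
            rw [Nat.card_Icc, Nat.add_sub_cancel] at h6
            exact_mod_cast h6
    linarith
  exact summable_of_sum_le (fun p => by positivity) h1

open scoped Classical in
theorem dens {q : ℕ} (hq : 0 < q) (N k : ℕ) {ε : ℝ} (hε : 0 < ε) : ∃ X₀ : ℕ, ∀ X : ℕ, X₀ ≤ X →
    (((Fintype.piFinset fun _ : Fin k => Icc (-(X : ℤ)) X).filter fun a => ¬ Gd q N a).card : ℝ) ≤
      ε * (2 * X + 1) ^ k := by
  rcases Nat.eq_zero_or_pos k with hk0 | hk
  · subst hk0
    refine ⟨0, fun X _ => ?_⟩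
    have h0 : (Fintype.piFinset fun _ : Fin 0 => Icc (-(X : ℤ)) X).filter (fun a => ¬ Gd q N a) =
        ∅ := by
      rw [filter_eq_empty_iff]
      intro a _
      rw [not_not]
      exact fun i => i.elim0
    rw [h0, card_empty, Nat.cast_zero]
    positivity
  have hk' : (0 : ℝ) < k := by exact_mod_cast hk
  set δ : ℝ := ε / (2 ^ N * (k * 2 ^ k)) with hδ
  have hδ0 : 0 < δ := by positivity
  obtain ⟨P, hP, hC⟩ := exists_primes hq (2 ^ (k + 1) * (-Real.log δ))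
  have hPp : ∀ l ∈ P, l.Prime := fun l hl => (hP l hl).1
  set M := ∏ l ∈ P, l ^ 2 with hM
  have hM0 : 0 < M := prod_pos fun l hl => pow_pos (hPp l hl).pos 2
  have hexp : Real.exp (-(2⁻¹ ^ (k + 1) * ∑ l ∈ P, (l : ℝ)⁻¹)) ≤ δ := by
    rw [← Real.le_log_iff_exp_le hδ0]
    have h1 : (2 : ℝ)⁻¹ ^ (k + 1) * (2 ^ (k + 1) * (-Real.log δ)) ≤
        2⁻¹ ^ (k + 1) * ∑ l ∈ P, (l : ℝ)⁻¹ := mul_le_mul_of_nonneg_left hC (by positivity)
    rw [← mul_assoc, ← mul_pow, inv_mul_cancel₀ two_ne_zero, one_pow, one_mul] at h1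
    linarith
  refine ⟨M, fun X hX => ?_⟩
  set box := Fintype.piFinset fun _ : Fin k => Icc (-(X : ℤ)) X with hbox
  have key : ∀ a ∈ box.filter (fun a => ¬ Gd q N a),
      (1 : ℝ) ≤ ∑ i : Fin k, 2 ^ N * ∏ l : P, wt i l (cls P a l) := by
    intro a ha
    have hbad := (mem_filter.1 ha).2
    unfold Gd at hbad
    push Not at hbad
    obtain ⟨i, hi⟩ := hbad
    have hcard : (P.filter fun l => EvI i l a).card ≤ N := by
      by_contra hlt
      push Not at hlt
      obtain ⟨l, hl, h⟩ := hi _ hlt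
      rw [mem_filter] at hl
      obtain ⟨hlP, h1, h2, h3⟩ := hl
      obtain ⟨j, hj1, hj2⟩ := h (hP l hlP).1 (hP l hlP).2 h1 h2
      exact h3 j hj1 hj2
    have hprod : ∏ l : P, wt i l (cls P a l) = (2 : ℝ)⁻¹ ^ (P.filter fun l => EvI i l a).card := by
      have h1 : ∏ l : P, wt i l (cls P a l) = ∏ l ∈ P, if EvI i l a then (2 : ℝ)⁻¹ else 1 := by
        rw [← prod_coe_sort P]
        refine prod_congr rfl fun l _ => ?_
        unfold wt
        have h2 := evI_iff i (hPp l.1 l.2) a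
        by_cases h3 : EvI i l.1 a
        · rw [if_pos h3]
          exact if_pos (h2.1 h3)
        · rw [if_neg h3]
          exact if_neg fun h4 => h3 (h2.2 h4)
      rw [h1, prod_ite, prod_const, prod_const_one, mul_one]
    have h1 : (1 : ℝ) ≤ 2 ^ N * ∏ l : P, wt i l (cls P a l) := by
      rw [hprod]
      have h2 : (2 : ℝ)⁻¹ ^ N ≤ (2 : ℝ)⁻¹ ^ (P.filter fun l => EvI i l a).card :=
        pow_le_pow_of_le_one (by norm_num) (by norm_num) hcard
      calc (1 : ℝ) = 2 ^ N * (2 : ℝ)⁻¹ ^ N := by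
            rw [← mul_pow, mul_inv_cancel₀ two_ne_zero, one_pow]
        _ ≤ _ := mul_le_mul_of_nonneg_left h2 (by positivity)
    refine h1.trans ?_
    exact single_le_sum (f := fun i : Fin k => (2 : ℝ) ^ N * ∏ l : P, wt i l (cls P a l))
      (fun i _ => mul_nonneg (by positivity) (prod_nonneg fun l _ => wt_nonneg i l _)) (mem_univ i)
  have hKM : ((((2 * X) / M + 1 : ℕ) : ℝ)) ^ k * ((M : ℝ)) ^ k ≤ 2 ^ k * (2 * X + 1) ^ k := by
    rw [← mul_pow, ← mul_pow]
    refine pow_le_pow_left₀ (by positivity) ?_ k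
    have h1 : ((2 * X) / M + 1) * M ≤ 2 * (2 * X + 1) := by
      have := Nat.div_mul_le_self (2 * X) M
      rw [add_mul, one_mul]
      omega
    exact_mod_cast h1
  calc ((box.filter fun a => ¬ Gd q N a).card : ℝ)
      = ∑ _a ∈ box.filter (fun a => ¬ Gd q N a), (1 : ℝ) := by simp
    _ ≤ ∑ a ∈ box.filter (fun a => ¬ Gd q N a),
        ∑ i : Fin k, 2 ^ N * ∏ l : P, wt i l (cls P a l) := sum_le_sum key
    _ ≤ ∑ a ∈ box, ∑ i : Fin k, 2 ^ N * ∏ l : P, wt i l (cls P a l) :=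
        sum_le_sum_of_subset_of_nonneg (filter_subset _ _) fun a _ _ =>
          sum_nonneg fun i _ => mul_nonneg (by positivity)
            (prod_nonneg fun l _ => wt_nonneg i l _)
    _ = ∑ i : Fin k, 2 ^ N * ∑ a ∈ box, ∏ l : P, wt i l (cls P a l) := by
        rw [sum_comm]
        exact sum_congr rfl fun i _ => (mul_sum _ _ _).symm
    _ ≤ ∑ _i : Fin k, 2 ^ N * (2 ^ k * (2 * X + 1) ^ k * δ) := by
        refine sum_le_sum fun i _ => mul_le_mul_of_nonneg_left ?_ (by positivity)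
        refine (sum_box hPp X i).trans ?_
        rw [← mul_assoc]
        exact mul_le_mul hKM hexp (Real.exp_pos _).le (by positivity)
    _ = ε * (2 * X + 1) ^ k := by
        rw [sum_const, card_univ, Fintype.card_fin, nsmul_eq_mul, hδ]
        field_simp

end Pool.Agent.KR
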