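import Pool.Agent.Lib_helper17.KR.Gen
import Pool.Agent.Lib_helper17.KR.Deg
import Pool.Agent.Lib_helper17.KR.Cnt
import Pool.Agent.Lib_helper17.KR.Dens

/-!
# Rubin's conjecture for Kummer extensions of cyclotomic fields
-/

set_option autoImplicit false
set_option linter.unusedSectionVars false

namespace Pool.Agent.KR

open Pool.Agent Pool.Agent.RSK Pool.Agent.RS3 Pool.Agent.SY Pool.Agent.CR Pool.Agent.HM NumberField
  IsDedekindDomain

/-- Rubin's conjecture is true for the extension `H/F` (for all data `S`, `T`, `r`, `w_i`). -/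
def RubinAll (F H : Type) [Field F] [NumberField F] [Field H] [NumberField H] [Algebra F H] :
    Prop :=
  ∀ (G : Type) [CommGroup G] [Fintype G] (ι : G ≃* (H ≃ₐ[F] H))
    (S T : Finset (HeightOneSpectrum (𝓞 F))) (r : ℕ) (w : Fin r → Pl H)
    (fr : HeightOneSpectrum (𝓞 F) → G), Data ι S T r w fr → Rubin ι S T w fr

/-- Let `F = ℚ(ζ_q)` and `H = F(a_1^{1/q}, …, a_k^{1/q})` (a splitting field of `∏ (X ^ q - a_i)`).
Then `Gal(H/F) ≅ (ℤ/q)^k`, and Rubin's conjecture is true for `H/F`. -/
def KumRubin (q : ℕ) {k : ℕ} (a : Fin k → ℤ) : Prop :=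
  ∀ (F H : Type) [Field F] [NumberField F] [Field H] [NumberField H] [Algebra F H],
    IsCyclotomicExtension {q} ℚ F →
    Polynomial.IsSplittingField F H (∏ i, (Polynomial.X ^ q - Polynomial.C ((a i : ℤ) : F))) →
      Nonempty ((H ≃ₐ[F] H) ≃* (Fin k → Multiplicative (ZMod q))) ∧ RubinAll F H

section

theorem finrank_adjoin_le {K L : Type} [Field K] [Field L] [Algebra K L] [FiniteDimensional K L]
    {q k : ℕ} (hq : 0 < q) (b : Fin k → L) (hb : ∀ i, ∃ a : K, b i ^ q = algebraMap K L a) :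
    Module.finrank K (IntermediateField.adjoin K (Set.range b)) ≤ q ^ k := by
  classical
  have key : ∀ s : Finset (Fin k),
      Module.finrank K (IntermediateField.adjoin K (b '' (s : Set (Fin k)))) ≤ q ^ s.card := by
    intro s
    induction s using Finset.induction_on with
    | empty =>
      rw [Finset.coe_empty, Set.image_empty, IntermediateField.adjoin_empty,
        IntermediateField.finrank_bot, Finset.card_empty, pow_zero]
    | insert i s hi ih =>
      have h1 : IntermediateField.adjoin K (b '' ((insert i s : Finset (Fin k)) : Set (Fin k))) =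
          IntermediateField.adjoin K {b i} ⊔ IntermediateField.adjoin K (b '' (s : Set (Fin k))) := by
        rw [Finset.coe_insert, Set.image_insert_eq, Set.insert_eq, IntermediateField.adjoin_union]
      rw [h1, Finset.card_insert_of_notMem hi, pow_succ, mul_comm]
      refine (IntermediateField.finrank_sup_le _ _).trans (Nat.mul_le_mul ?_ ih)
      obtain ⟨a, ha⟩ := hb i
      rw [IntermediateField.adjoin.finrank (IsIntegral.of_finite K (b i))]
      have h2 : minpoly K (b i) ∣ (Polynomial.X ^ q - Polynomial.C a) := by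
        apply minpoly.dvd
        simp [ha]
      have h3 := Polynomial.natDegree_le_of_dvd h2 (Polynomial.X_pow_sub_C_ne_zero hq a)
      rwa [Polynomial.natDegree_X_pow_sub_C] at h3
  have h := key Finset.univ
  rwa [Finset.coe_univ, Set.image_univ, Finset.card_univ, Fintype.card_fin] at h

variable {F H : Type} [Field F] [NumberField F] [Field H] [NumberField H] [Algebra F H]

theorem finrank_le_adjoin (b : Set H) (hgen : IntermediateField.adjoin F b = ⊤) :
    Module.finrank F H ≤ Module.finrank ℚ (IntermediateField.adjoin ℚ b) := by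
  let F' : IntermediateField ℚ H := (IsScalarTower.toAlgHom ℚ F H).fieldRange
  have h1 : F' ⊔ IntermediateField.adjoin ℚ b = ⊤ := by
    rw [eq_top_iff]
    have h2 : ∀ x ∈ IntermediateField.adjoin F b, x ∈ F' ⊔ IntermediateField.adjoin ℚ b := by
      intro x hx
      induction hx using IntermediateField.adjoin_induction with
      | mem x hx =>
        exact (le_sup_right : _ ≤ F' ⊔ IntermediateField.adjoin ℚ b)
          (IntermediateField.subset_adjoin ℚ b hx)
      | algebraMap x =>
        exact (le_sup_left : F' ≤ F' ⊔ IntermediateField.adjoin ℚ b) ⟨x, rfl⟩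
      | add x y _ _ hx hy => exact add_mem hx hy
      | inv x _ hx => exact inv_mem hx
      | mul x y _ _ hx hy => exact mul_mem hx hy
    intro x _
    exact h2 x (hgen ▸ IntermediateField.mem_top)
  have h2 := IntermediateField.finrank_sup_le F' (IntermediateField.adjoin ℚ b)
  rw [h1, IntermediateField.finrank_top'] at h2
  have h3 : Module.finrank ℚ F' = Module.finrank ℚ F := by
    have e : F ≃ₐ[ℚ] F' := AlgEquiv.ofInjectiveField (IsScalarTower.toAlgHom ℚ F H)
    exact e.toLinearEquiv.finrank_eq.symm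
  rw [h3, ← Module.finrank_mul_finrank ℚ F H] at h2
  exact Nat.le_of_mul_le_mul_left h2 Module.finrank_pos

end

section

variable {F H : Type} [Field F] [NumberField F] [Field H] [NumberField H] [Algebra F H]

theorem isGalois_of {q k : ℕ} (a : Fin k → F)
    [h : Polynomial.IsSplittingField F H (∏ i, (Polynomial.X ^ q - Polynomial.C (a i)))] :
    IsGalois F H := by
  have : Normal F H := Normal.of_isSplittingField (∏ i, (Polynomial.X ^ q - Polynomial.C (a i)))
  exact ⟨⟩

/-- the bound for `mQ` -/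
def bd (p f k : ℕ) : ℕ := p ^ f * (k * f * (p - 1) + 1)

theorem kum_group {q k : ℕ} [NeZero q] {ζ : F} (hζ : IsPrimitiveRoot ζ q)
    {κ : (H ≃ₐ[F] H) →* (Fin k → rootsOfUnity q F)} (hκ : Function.Injective κ)
    (hcard : Nat.card (H ≃ₐ[F] H) = q ^ k) :
    Nonempty ((H ≃ₐ[F] H) ≃* (Fin k → Multiplicative (ZMod q))) := by
  classical
  have h1 : Nat.card (rootsOfUnity q F) = q := hζ.card_rootsOfUnity
  have h2 : Nat.card (Fin k → rootsOfUnity q F) = q ^ k := by
    rw [Nat.card_fun, Nat.card_fin, h1]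
  have h3 : Function.Bijective κ := by
    rw [Nat.bijective_iff_injective_and_card]
    exact ⟨hκ, by rw [hcard, h2]⟩
  have e1 : rootsOfUnity q F ≃* Multiplicative (ZMod q) := by
    refine mulEquivOfCyclicCardEq ?_
    rw [h1]
    show q = Nat.card (ZMod q)
    rw [Nat.card_zmod]
  exact ⟨(MulEquiv.ofBijective κ h3).trans (MulEquiv.piCongrRight fun _ => e1)⟩

theorem kum_good {p f k : ℕ} (hp : p.Prime) (hf : 0 < f) (hk : 0 < k) (a : Fin k → ℤ)
    (ha : Gd (p ^ f) (bd p f k) a) [IsCyclotomicExtension {p ^ f} ℚ F]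
    [h : Polynomial.IsSplittingField F H
      (∏ i, (Polynomial.X ^ (p ^ f) - Polynomial.C ((a i : ℤ) : F)))] :
    Nonempty ((H ≃ₐ[F] H) ≃* (Fin k → Multiplicative (ZMod (p ^ f)))) ∧ RubinAll F H := by
  classical
  have hpf : Fact p.Prime := ⟨hp⟩
  set q := p ^ f with hqdef
  have hq : 0 < q := pow_pos hp.pos f
  have hq2 : 2 ≤ q := by
    calc 2 ≤ p := hp.two_le
      _ = p ^ 1 := (pow_one p).symm
      _ ≤ p ^ f := Nat.pow_le_pow_right hp.pos hf
  have : NeZero q := ⟨hq.ne'⟩
  have hGal : IsGalois F H := isGalois_of (q := q) fun i => ((a i : ℤ) : F)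
  have hζ := IsCyclotomicExtension.zeta_spec q ℚ F
  obtain ⟨b, hb⟩ := exists_roots (F := F) (H := H) hq fun i => ((a i : ℤ) : F)
  have hgen := adjoin_roots (F := F) (H := H) hq (fun i => ((a i : ℤ) : F)) hζ hb
  -- the `a_i` are not zero
  have ha0 : ∀ i, ((a i : ℤ) : F) ≠ 0 := by
    intro i h0
    obtain ⟨s, hs, hl⟩ := ha i
    obtain ⟨l, hls⟩ := Finset.card_pos.1 (lt_of_le_of_lt (Nat.zero_le _) hs)
    have h1 := (hl l hls).2.2.2.1
    rw [Int.cast_eq_zero] at h0
    rw [h0] at h1
    exact h1 (dvd_zero _)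
  obtain ⟨κ, hκ⟩ := exists_kap (F := F) (H := H) hq ha0 hζ hb
  have hκi := kap_inj hgen hκ
  have hv : ∀ i, ∃ v : HeightOneSpectrum (𝓞 F), ordv v ((a i : ℤ) : F) = 1 ∧
      ∀ j, j ≠ i → ordv v ((a j : ℤ) : F) = 0 := by
    intro i
    obtain ⟨s, hs, hl⟩ := ha i
    obtain ⟨l, hls⟩ := Finset.card_pos.1 (lt_of_le_of_lt (Nat.zero_le _) hs)
    obtain ⟨h1, h2, h3, h4, h5⟩ := hl l hls
    obtain ⟨v, hv⟩ := exists_above F h1
    exact ⟨v, ordv_one_of (q := q) h1 h2 hv h3 h4, fun j hj => ordv_int_zero h1 hv (h5 j hj)⟩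
  have hge := deg_ge (F := F) (H := H) hq ha0 hb hκ hv
  have hle := kap_card_le (F := F) (H := H) hq hκi
  rw [IsGalois.card_aut_eq_finrank F H] at hle
  have hdeg : Module.finrank F H = q ^ k := le_antisymm hle hge
  refine ⟨kum_group hζ hκi (by rw [IsGalois.card_aut_eq_finrank F H, hdeg]), ?_⟩
  intro G _ _ ι S T r w fr hD
  have hcard : Nat.card G = q ^ k := by
    rw [Nat.card_congr ι.toEquiv, IsGalois.card_aut_eq_finrank F H, hdeg]
  have hpG : IsPGroup p G := by
    rw [IsPGroup.iff_card]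
    exact ⟨f * k, by rw [hcard, hqdef, pow_mul]⟩
  have hexp : Monoid.exponent G ∣ q := by
    apply Monoid.exponent_dvd_of_forall_pow_eq_one
    intro g
    apply ι.injective
    rw [map_pow, map_one]
    exact kap_exp hκi (ι g)
  -- KumN
  have hkum : KumN F H := by
    refine ⟨ℚ, inferInstance, inferInstance, inferInstance, inferInstance, inferInstance, q,
      IsCyclotomicExtension.zeta q ℚ F, Set.range b, hq, ⟨hζ, ?_, ?_, ?_, hgen⟩, ?_⟩
    · have h1 : Algebra.adjoin ℚ ({IsCyclotomicExtension.zeta q ℚ F} : Set F) = ⊤ :=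
        IsCyclotomicExtension.adjoin_primitive_root_eq_top hζ
      rw [eq_top_iff]
      intro x _
      exact IntermediateField.algebra_adjoin_le_adjoin ℚ _
        (show x ∈ Algebra.adjoin ℚ ({IsCyclotomicExtension.zeta q ℚ F} : Set F) from
          h1 ▸ Algebra.mem_top)
    · exact IsCyclotomicExtension.finrank F (Polynomial.cyclotomic.irreducible_rat hq)
    · rintro _ ⟨i, rfl⟩
      exact ⟨(a i : ℚ), by rw [hb]; simp⟩
    · intro _
      apply le_antisymm
      · rw [hdeg]
        exact finrank_adjoin_le hq b fun i => ⟨(a i : ℚ), by rw [hb]; simp⟩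
      · exact finrank_le_adjoin (F := F) _ hgen
  -- the bound
  have hm : mQ p G ≤ bd p f k := by
    unfold mQ bd
    have e1 : (Monoid.exponent G).factorization p ≤ f := by
      have h1 := (Nat.factorization_le_iff_dvd Monoid.exponent_ne_zero_of_finite hq.ne').2 hexp p
      rwa [hqdef, hp.factorization_pow, Finsupp.single_eq_same] at h1
    have e2 : (Nat.card G).factorization p = k * f := by
      rw [hcard, hqdef, ← pow_mul, hp.factorization_pow, Finsupp.single_eq_same, mul_comm]
    refine Nat.mul_le_mul (Nat.pow_le_pow_right hp.pos (by omega)) ?_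
    rw [e2]
    refine Nat.add_le_add_right (Nat.mul_le_mul_right _ (Nat.sub_le _ _)) 1
  -- the number of places
  obtain ⟨s, hs, hl⟩ := ha ⟨0, hk⟩
  have hc := count (F := F) (H := H) hq2 hD (a := a ⟨0, hk⟩) (b := b ⟨0, hk⟩)
    (by rw [hb, map_intCast]) (s := s)
    fun l hls => ⟨(hl l hls).1, (hl l hls).2.1, (hl l hls).2.2.1, (hl l hls).2.2.2.1⟩
  refine (gen ι S T w fr hD (holAll_of ι (Or.inr (Or.inl hkum)))).2 p hp hpG ?_
  omega

end

theorem kum_dens {p f k : ℕ} (hp : p.Prime) (hf : 0 < f) (hk : 0 < k) {ε : ℝ} (hε : 0 < ε) :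
    ∃ X₀ : ℕ, ∀ X : ℕ, X₀ ≤ X →
      (Nat.card {a : Fin k → ℤ // (∀ i, |a i| ≤ X) ∧ ¬ KumRubin (p ^ f) a} : ℝ) ≤
        ε * (2 * X + 1) ^ k := by
  classical
  obtain ⟨X₀, h⟩ := dens (q := p ^ f) (pow_pos hp.pos f) (bd p f k) k hε
  refine ⟨X₀, fun X hX => le_trans ?_ (h X hX)⟩
  have hsub : {a : Fin k → ℤ | (∀ i, |a i| ≤ X) ∧ ¬ KumRubin (p ^ f) a} ⊆
      (((Fintype.piFinset fun _ : Fin k => Finset.Icc (-(X : ℤ)) X).filter
        fun a => ¬ Gd (p ^ f) (bd p f k) a : Finset (Fin k → ℤ)) : Set (Fin k → ℤ)) := by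
    rintro a ⟨h1, h2⟩
    rw [Finset.mem_coe, Finset.mem_filter, Fintype.mem_piFinset]
    refine ⟨fun i => Finset.mem_Icc.2 (abs_le.1 (h1 i)), fun h3 => h2 ?_⟩
    intro F H _ _ _ _ _ hF hH
    exact kum_good hp hf hk a h3
  have h1 := Set.ncard_le_ncard hsub (Finset.finite_toSet _)
  rw [Set.ncard_coe_finset] at h1
  rw [Nat.cast_le]
  exact h1

end Pool.Agent.KR
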