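import Pool.Agent.Lib_helper17.KR.Gen

/-!
# Rubin's conjecture at `p` for abelian `p`-extensions
-/

set_option autoImplicit false
set_option linter.unusedSectionVars false

namespace Pool.Agent.KR

open Pool.Agent Pool.Agent.RSK Pool.Agent.RS3 Pool.Agent.SY Pool.Agent.AU Pool.Agent.RT Pool.Agent.CR
  Pool.Agent.HM NumberField IsDedekindDomain
open scoped TensorProduct

section M

variable {R M B : Type} [CommRing R] [AddCommGroup M] [Module R M] [CommRing B] [Module ℚ B] {r : ℕ}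

theorem locInt_add {j : R →+* B} {q : ℕ} (hq : q.Prime) {u v : (⋀[R]^r M) ⊗[ℤ] ℚ}
    (hu : LocInt j q 0 u) (hv : LocInt j q 0 v) : LocInt j q 0 (u + v) := by
  intro ψ
  obtain ⟨m, a, hm, ha⟩ := hu ψ
  obtain ⟨n, b, hn, hb⟩ := hv ψ
  refine ⟨m * n, n * a + m * b, fun h => (hq.dvd_mul.1 h).elim hm hn, ?_⟩
  rw [pow_zero, mul_one] at ha hb ⊢
  rw [map_add, smul_add, map_add, map_mul, map_mul, map_natCast, map_natCast, ← ha, ← hb,
    nsmul_eq_mul, nsmul_eq_mul, nsmul_eq_mul, nsmul_eq_mul]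
  push_cast
  ring

/-- In the application `R = ℤ[G]`, `A = ℝ[G]`, `B = ℚ[G]` and `j : R → B` is the inclusion. There is
an element `u ∈ ℚ ⊗ ⋀^r_R M` which is killed by `I` and mapped to `Θ` by `l_1 ∧ … ∧ l_r`, such that
all `ψ_1 ∧ … ∧ ψ_r` with `ψ_i ∈ Hom_R(M, R)` map `a u` to `ℤ_(p)[G]`, for all `a ∈ J`. -/
def HasRatAt {A : Type} [CommRing A] [Algebra R A] [Module ℚ A] (j : R →+* B) (p : ℕ)
    (l : Fin r → (M →ₗ[R] A)) (I J : Set R) (Θ : A) : Prop :=
  ∃ u : (⋀[R]^r M) ⊗[ℤ] ℚ, IsRat l I Θ u ∧ ∀ a ∈ J, LocInt j p 0 (a • u)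

end M

section

variable {F H : Type} [Field F] [NumberField F] [Field H] [NumberField H] [Algebra F H]
  {G : Type} [CommGroup G] [Fintype G]

/-- There is an element `u = e_r u` with `(w_1^* ∧ … ∧ w_r^*)(λ(u)) = Θ` such that `a u` lies in
Rubin's lattice locally at the prime `p`, for all `a ∈ J` (see `HasRatAt`). -/
def RubinAt (p : ℕ) (J : Set (MonoidAlgebra ℤ G)) (ι : G ≃* (H ≃ₐ[F] H))
    (S T : Finset (HeightOneSpectrum (𝓞 F))) {r : ℕ} (w : Fin r → Pl H)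
    (fr : HeightOneSpectrum (𝓞 F) → G) : Prop :=
  ∃ (c : (G →* ℂˣ) → ℂ) (Θ : MonoidAlgebra ℝ G), Lead S T r fr c ∧ (∀ χ, evR χ Θ = c χ⁻¹) ∧
    ∃ (M : Type) (_ : AddCommGroup M) (_ : Module (MonoidAlgebra ℤ G) M) (e : M → Hˣ)
      (l : Fin r → (M →ₗ[MonoidAlgebra ℤ G] MonoidAlgebra ℝ G)), IsMod ι S T w e l ∧
        HasRatAt (toQ G) p l {a | ∀ χ, c χ ≠ 0 → evZ χ a = 0} J Θ

/-- More than `m = mQ p G` places in `S` do not split completely in `H`: `#S > r + m` (the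
archimedean places belong to `S`, and exactly `r` places of `S` split completely). -/
def ManyPl (p : ℕ) (F G : Type) [Field F] [NumberField F] [CommGroup G]
    (S : Finset (HeightOneSpectrum (𝓞 F))) (r : ℕ) : Prop :=
  r + mQ p G < Fintype.card (InfinitePlace F) + S.card

/-- the ideal generated by `#G` and the `m`-th power of the augmentation ideal, `m = mQ p G` -/
noncomputable def MulId (p : ℕ) (G : Type) [CommGroup G] : Ideal (MonoidAlgebra ℤ G) :=
  Ideal.span {((Nat.card G : ℕ) : MonoidAlgebra ℤ G)} ⊔ augQ p G ^ mQ p G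

/-- all of `ℤ[G]` if more than `m` places in `S` do not split completely in `H`, and the ideal
generated by `#G` and the `m`-th power of the augmentation ideal for all `S` -/
def MulSet (p : ℕ) (F G : Type) [Field F] [NumberField F] [CommGroup G]
    (S : Finset (HeightOneSpectrum (𝓞 F))) (r : ℕ) : Set (MonoidAlgebra ℤ G) :=
  {a | ManyPl p F G S r ∨ a ∈ MulId p G}

/-- The extensions `H/F` for which Stark's conjecture over `ℚ` is proved here: `SymT`, `HolT`,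
`KumN`, or `PermLay` holds for all nontrivial cyclic `K/F` in `H`. -/
def StarkFam (ι : G ≃* (H ≃ₐ[F] H)) : Prop :=
  SymT F H ∨ HolT F H ∨ KumN F H ∨
    ∀ N : Subgroup G, IsCyclic (G ⧸ N) → N ≠ ⊤ → PermLay F (Kf ι N)

/-- `K/F` of `p`-power degree: `AutAt p` is true. -/
theorem autAt_self {p : ℕ} (hp : p.Prime) {F K : Type} [Field F] [Field K] [Algebra F K]
    (h : ∃ j : ℕ, Nat.card (K ≃ₐ[F] K) = p ^ j) : AutAt p F K := by
  obtain ⟨j, hj⟩ := h
  intro a _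
  refine ⟨0, 1, RingEquiv.refl K, fun σ x => by simp, fun σ hσ => ?_⟩
  have h1 : orderOf σ ∣ p ^ j := hj ▸ orderOf_dvd_natCard σ
  obtain ⟨i, -, hi⟩ := (Nat.dvd_prime_pow hp).1 h1
  have h2 : orderOf σ = 1 := by
    rcases Nat.eq_zero_or_pos i with h0 | h0
    · rw [hi, h0, pow_zero]
    · exact absurd (hi ▸ dvd_pow_self p h0.ne') hσ
  rw [orderOf_eq_one_iff] at h2
  rw [h2, one_pow, one_pow]

/-- `AutAt q` for a primitive root `q` modulo `[K : F]` -/
theorem autAt_prim {q n : ℕ} {F K : Type} [Field F] [Field K] [Algebra F K]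
    (hn : ∀ σ : K ≃ₐ[F] K, σ ^ n = 1)
    (h : ∀ a : ℕ, a.Coprime (Module.finrank F K) → ∃ i : ℕ, q ^ i ≡ a [MOD n]) :
    AutAt q F K := by
  intro a ha
  obtain ⟨i, hi⟩ := h a ha
  refine ⟨i, 1, RingEquiv.refl K, fun σ x => by simp, fun σ _ => ?_⟩
  rw [one_mul]
  have h1 : orderOf σ ∣ n := orderOf_dvd_of_pow_eq_one (hn σ)
  exact pow_eq_pow_iff_modEq.2 (hi.of_dvd h1)

end

section

variable {F H : Type} [Field F] [NumberField F] [Field H] [NumberField H] [Algebra F H]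
  [IsGalois F H] {G : Type} [CommGroup G] [Fintype G]

theorem kf_card {p : ℕ} (hp : p.Prime) (hG : IsPGroup p G) (ι : G ≃* (H ≃ₐ[F] H))
    (N : Subgroup G) : ∃ j : ℕ, Nat.card (Kf ι N ≃ₐ[F] Kf ι N) = p ^ j := by
  have hpf : Fact p.Prime := ⟨hp⟩
  have := kf_galois ι N
  obtain ⟨e, he⟩ := IsPGroup.iff_card.1 hG
  have h1 : Nat.card (Kf ι N ≃ₐ[F] Kf ι N) = Module.finrank F (Kf ι N) :=
    IsGalois.card_aut_eq_finrank F (Kf ι N)
  have h2 : Nat.card (H ≃ₐ[F] H) = Module.finrank F H := IsGalois.card_aut_eq_finrank F H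
  have h3 : Nat.card (H ≃ₐ[F] H) = p ^ e := by
    rw [← he]
    exact (Nat.card_congr ι.toEquiv).symm
  have h4 : Module.finrank F (Kf ι N) ∣ p ^ e := by
    rw [← h3, h2, ← Module.finrank_mul_finrank F (Kf ι N) H]
    exact dvd_mul_right _ _
  obtain ⟨j, -, hj⟩ := (Nat.dvd_prime_pow hp).1 h4
  exact ⟨j, h1.trans hj⟩

theorem starkMul_p (ι : G ≃* (H ≃ₐ[F] H)) (S T : Finset (HeightOneSpectrum (𝓞 F))) {r : ℕ}
    (w : Fin r → Pl H) (fr : HeightOneSpectrum (𝓞 F) → G) (hD : Data ι S T r w fr) {p : ℕ}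
    (hp : p.Prime) (hG : IsPGroup p G) {a : MonoidAlgebra ℤ G}
    (ha : r + mQ p G < Fintype.card (InfinitePlace F) + S.card ∨
      a ∈ Ideal.span {((Nat.card G : ℕ) : MonoidAlgebra ℤ G)} ⊔ augQ p G ^ mQ p G) :
    CRF.StarkMul p a ι S T w fr := by
  have hpf : Fact p.Prime := ⟨hp⟩
  obtain ⟨e, he⟩ := IsPGroup.iff_card.1 hG
  have hA : ∀ N : Subgroup G, IsCyclic (G ⧸ N) → AutAt p F (Kf ι N) := fun N _ =>
    autAt_self hp (kf_card hp hG ι N)
  rcases ha with hS | ha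
  · have hE : CondE p 0 0 ι S w := by
      refine Or.inr (Or.inr (Or.inl ⟨by omega, fun M hM _ hM2 => ?_⟩))
      exfalso
      have h1 : M.index ∣ p ^ e := he ▸ M.index_dvd_card
      obtain ⟨j, -, hj⟩ := (Nat.dvd_prime_pow hp).1 h1
      rcases Nat.eq_zero_or_pos j with h0 | h0
      · rw [h0, pow_zero] at hj
        exact hM (Subgroup.index_eq_one.1 hj)
      · exact hM2 (hj ▸ dvd_pow_self p h0.ne')
    have := CRF.starkMul_of (alphaE ι S T w fr hD hp hA hE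
      (b := a) (by rw [pow_zero, Ideal.one_eq_top]; trivial))
    rwa [pow_zero, one_mul] at this
  · obtain ⟨x, hx, y, hy, rfl⟩ := Submodule.mem_sup.1 ha
    obtain ⟨x', rfl⟩ := Ideal.mem_span_singleton'.1 hx
    have h1 := CRF.starkMul_of (alphaE ι S T w fr hD hp hA (κ := e) (t := 0)
      (Or.inl (by
        rw [he]
        exact fun h => absurd (Nat.pow_dvd_pow_iff_le_right hp.one_lt |>.1 h) (by omega)))
      (b := x') (by rw [pow_zero, Ideal.one_eq_top]; trivial))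
    have h2 := CRF.starkMul_of (alphaE ι S T w fr hD hp hA (κ := 0) (t := mQ p G)
      (Or.inr (Or.inl le_rfl)) (b := y) hy)
    intro c Θ hL hΘ M i1 i2 ee l hM u hu
    have e1 : (x' * ((Nat.card G : ℕ) : MonoidAlgebra ℤ G) + y) • u =
        ((p : MonoidAlgebra ℤ G) ^ e * x') • u + ((p : MonoidAlgebra ℤ G) ^ 0 * y) • u := by
      rw [← add_smul, he, pow_zero, one_mul]
      push_cast
      rw [mul_comm]
    rw [e1]
    exact locInt_add hp (h1 c Θ hL hΘ M i1 i2 ee l hM u hu) (h2 c Θ hL hΘ M i1 i2 ee l hM u hu)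

theorem starkMul_q (ι : G ≃* (H ≃ₐ[F] H)) (S T : Finset (HeightOneSpectrum (𝓞 F))) {r : ℕ}
    (w : Fin r → Pl H) (fr : HeightOneSpectrum (𝓞 F) → G) (hD : Data ι S T r w fr) {p q : ℕ}
    (hp : p.Prime) (hG : IsPGroup p G) (hq : q.Prime) (hpq : q ≠ p)
    (hgen : ∀ a : ℕ, a.Coprime p → ∃ i : ℕ, q ^ i ≡ a [MOD Monoid.exponent G]) :
    CRF.StarkMul q 1 ι S T w fr := by
  have hpf : Fact p.Prime := ⟨hp⟩
  obtain ⟨e, he⟩ := IsPGroup.iff_card.1 hG
  have hA : ∀ N : Subgroup G, IsCyclic (G ⧸ N) → AutAt q F (Kf ι N) := by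
    intro N _
    have := kf_galois ι N
    obtain ⟨j, hj⟩ := kf_card hp hG ι N
    have h1 : Nat.card (Kf ι N ≃ₐ[F] Kf ι N) = Module.finrank F (Kf ι N) :=
      IsGalois.card_aut_eq_finrank F (Kf ι N)
    rcases Nat.eq_zero_or_pos j with h0 | h0
    · -- trivial extension
      refine fun a _ => ⟨0, 1, RingEquiv.refl _, fun σ x => by simp, fun σ _ => ?_⟩
      have h2 : Nat.card (Kf ι N ≃ₐ[F] Kf ι N) = 1 := by rw [hj, h0, pow_zero]
      have h3 := (Nat.card_eq_one_iff_unique.1 h2).1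
      exact Subsingleton.elim _ _
    · refine autAt_prim (n := Monoid.exponent G) (fun σ => ?_) (fun a ha => hgen a ?_)
      · obtain ⟨τ, rfl⟩ : ∃ τ : H ≃ₐ[F] H, AlgEquiv.restrictNormalHom (Kf ι N) τ = σ :=
          AlgEquiv.restrictNormalHom_surjective H σ
        rw [← map_pow]
        have h4 : τ ^ Monoid.exponent G = 1 := by
          have h5 := Monoid.pow_exponent_eq_one (ι.symm τ)
          have h6 := congrArg ι h5
          rwa [map_pow, MulEquiv.apply_symm_apply, map_one] at h6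
        rw [h4, map_one]
      · rw [← h1, hj] at ha
        exact (Nat.coprime_pow_right_iff h0 a p).1 ha
  have := CRF.starkMul_of (alphaE ι S T w fr hD hq hA (κ := 0) (t := 0)
    (Or.inl (by
      rw [zero_add, pow_one, he]
      exact fun h => hpq ((Nat.prime_dvd_prime_iff_eq hq hp).1 (hq.dvd_of_dvd_pow h))))
    (b := 1) (by rw [pow_zero, Ideal.one_eq_top]; trivial))
  rwa [pow_zero, one_mul] at this

theorem starkFam_lay (ι : G ≃* (H ≃ₐ[F] H)) (h : StarkFam ι) :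
    ∀ N : Subgroup G, IsCyclic (G ⧸ N) → N ≠ ⊤ → PermLay F (Kf ι N) := by
  intro N hN hne
  rcases h with h | h | h | h
  · exact sym_lay ι h N hN
  · exact hol_lay ι h N hN
  · exact hol_lay ι (kum_holT h) N hN
  · exact h N hN hne

theorem rubinAt_of (ι : G ≃* (H ≃ₐ[F] H)) (S T : Finset (HeightOneSpectrum (𝓞 F))) {r : ℕ}
    (w : Fin r → Pl H) (fr : HeightOneSpectrum (𝓞 F) → G) (hD : Data ι S T r w fr) {p : ℕ}
    (J : Set (MonoidAlgebra ℤ G)) (hJ : ∀ a ∈ J, CRF.StarkMul p a ι S T w fr)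
    (hP : ∀ N : Subgroup G, IsCyclic (G ⧸ N) → N ≠ ⊤ → PermLay F (Kf ι N)) :
    RubinAt p J ι S T w fr := by
  obtain ⟨c, Θ, h1, h2, M, i1, i2, e, l, h3, u, h4⟩ := stark_perm hD hP
  refine ⟨c, Θ, h1, h2, M, i1, i2, e, l, h3, u, h4, fun a ha => ?_⟩
  exact hJ a ha c Θ h1 h2 M i1 i2 e l h3 u
    ⟨fun a ha => h4.er a (fun χ hχ => ha χ (by
      by_contra hc
      exact hχ (cont_zero hD h1 hP χ hc))), h4.value⟩

end

end Pool.Agent.KR
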