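import Pool.Agent.Lib_helper17.KR.Val

/-!
# Kummer extensions: the Galois group
-/

set_option autoImplicit false
set_option linter.unusedSectionVars false

namespace Pool.Agent.KR

open Pool.Agent.RSK NumberField IsDedekindDomain

section Roots

variable {F H : Type} [Field F] [Field H] [Algebra F H]

/-- the roots of a splitting field of `∏ (X ^ q - a_i)` -/
theorem exists_roots {q k : ℕ} (hq : 0 < q) (a : Fin k → F)
    [h : Polynomial.IsSplittingField F H (∏ i, (Polynomial.X ^ q - Polynomial.C (a i)))] :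
    ∃ b : Fin k → H, ∀ i, b i ^ q = algebraMap F H (a i) := by
  have key : ∀ i, ∃ x : H, x ^ q = algebraMap F H (a i) := by
    intro i
    have h1 := h.splits'
    rw [Polynomial.map_prod] at h1
    have hne : ∏ i, ((Polynomial.X ^ q - Polynomial.C (a i)).map (algebraMap F H)) ≠ 0 := by
      rw [Finset.prod_ne_zero_iff]
      intro j _
      rw [Polynomial.map_ne_zero_iff (algebraMap F H).injective]
      exact Polynomial.X_pow_sub_C_ne_zero hq (a j)
    have h2 := Polynomial.Splits.of_dvd h1 hne (Finset.dvd_prod_of_mem _ (Finset.mem_univ i))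
    have hdeg : ((Polynomial.X ^ q - Polynomial.C (a i)).map (algebraMap F H)).degree ≠ 0 := by
      rw [Polynomial.degree_map, Polynomial.degree_X_pow_sub_C hq]
      exact_mod_cast hq.ne'
    obtain ⟨x, hx⟩ := h2.exists_eval_eq_zero hdeg
    refine ⟨x, ?_⟩
    simp only [Polynomial.map_sub, Polynomial.map_pow, Polynomial.map_X, Polynomial.map_C,
      Polynomial.eval_sub, Polynomial.eval_pow, Polynomial.eval_X, Polynomial.eval_C] at hx
    exact sub_eq_zero.1 hx
  choose b hb using key
  exact ⟨b, hb⟩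

theorem adjoin_roots {q k : ℕ} (hq : 0 < q) (a : Fin k → F) {ζ : F} (hζ : IsPrimitiveRoot ζ q)
    [h : Polynomial.IsSplittingField F H (∏ i, (Polynomial.X ^ q - Polynomial.C (a i)))]
    {b : Fin k → H} (hb : ∀ i, b i ^ q = algebraMap F H (a i)) :
    IntermediateField.adjoin F (Set.range b) = ⊤ := by
  rw [eq_top_iff]
  have h1 := h.adjoin_rootSet'
  have h2 : (⊤ : Subalgebra F H) ≤ (IntermediateField.adjoin F (Set.range b)).toSubalgebra := by
    rw [← h1, Algebra.adjoin_le_iff]
    intro x hx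
    rw [SetLike.mem_coe, IntermediateField.mem_toSubalgebra]
    rw [Polynomial.mem_rootSet] at hx
    obtain ⟨-, hx⟩ := hx
    rw [map_prod, Finset.prod_eq_zero_iff] at hx
    obtain ⟨i, -, hi⟩ := hx
    rw [map_sub, map_pow, Polynomial.aeval_X, Polynomial.aeval_C, ← hb i] at hi
    have hi' : x ^ q = b i ^ q := sub_eq_zero.1 hi
    have hbi : b i ∈ IntermediateField.adjoin F (Set.range b) :=
      IntermediateField.subset_adjoin F _ ⟨i, rfl⟩
    by_cases h0 : b i = 0
    · rw [h0, zero_pow hq.ne'] at hi'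
      rw [(pow_eq_zero_iff hq.ne').1 hi']
      exact zero_mem _
    · have hz : (x / b i) ^ q = 1 := by
        rw [div_pow, hi', div_self (pow_ne_zero _ h0)]
      have hζ' : IsPrimitiveRoot (algebraMap F H ζ) q :=
        hζ.map_of_injective (algebraMap F H).injective
      have : NeZero q := ⟨hq.ne'⟩
      obtain ⟨j, -, hj⟩ := hζ'.eq_pow_of_pow_eq_one hz
      have hx' : x = algebraMap F H (ζ ^ j) * b i := by
        rw [map_pow, hj, div_mul_cancel₀ _ h0]
      rw [hx']
      exact mul_mem (IntermediateField.algebraMap_mem _ _) hbi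
  intro x _
  exact h2 (Algebra.mem_top)

/-- the Kummer cocycle -/
theorem exists_kap {q k : ℕ} (hq : 0 < q) {a : Fin k → F} (ha : ∀ i, a i ≠ 0) {ζ : F}
    (hζ : IsPrimitiveRoot ζ q) {b : Fin k → H} (hb : ∀ i, b i ^ q = algebraMap F H (a i)) :
    ∃ κ : (H ≃ₐ[F] H) →* (Fin k → rootsOfUnity q F),
      ∀ (σ : H ≃ₐ[F] H) (i : Fin k), σ (b i) = algebraMap F H ((κ σ i : Fˣ) : F) * b i := by
  classical
  have hb0 : ∀ i, b i ≠ 0 := by
    intro i h
    have := hb i
    rw [h, zero_pow hq.ne'] at this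
    exact ha i ((map_eq_zero _).1 this.symm)
  have : NeZero q := ⟨hq.ne'⟩
  have key : ∀ (σ : H ≃ₐ[F] H) (i : Fin k), ∃ z : rootsOfUnity q F,
      σ (b i) = algebraMap F H ((z : Fˣ) : F) * b i := by
    intro σ i
    have hz : (σ (b i) / b i) ^ q = 1 := by
      rw [div_pow, ← map_pow, hb, AlgEquiv.commutes, div_self]
      exact (map_ne_zero _).2 (ha i)
    have hζ' : IsPrimitiveRoot (algebraMap F H ζ) q :=
      hζ.map_of_injective (algebraMap F H).injective
    obtain ⟨j, -, hj⟩ := hζ'.eq_pow_of_pow_eq_one hz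
    have hζu : ζ ≠ 0 := hζ.ne_zero hq.ne'
    refine ⟨⟨(Units.mk0 ζ hζu) ^ j, ?_⟩, ?_⟩
    · rw [mem_rootsOfUnity]
      apply Units.ext
      rw [Units.val_pow_eq_pow_val, Units.val_pow_eq_pow_val, Units.val_mk0, ← pow_mul,
        mul_comm, pow_mul, hζ.pow_eq_one, one_pow, Units.val_one]
    · show σ (b i) = algebraMap F H (((Units.mk0 ζ hζu) ^ j : Fˣ) : F) * b i
      rw [Units.val_pow_eq_pow_val, Units.val_mk0, map_pow, hj, div_mul_cancel₀ _ (hb0 i)]
  choose κ hκ using key
  have huniq : ∀ (i : Fin k) (z z' : rootsOfUnity q F),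
      algebraMap F H ((z : Fˣ) : F) * b i = algebraMap F H ((z' : Fˣ) : F) * b i → z = z' := by
    intro i z z' h
    have h1 := mul_right_cancel₀ (hb0 i) h
    exact Subtype.ext (Units.ext ((algebraMap F H).injective h1))
  refine ⟨⟨⟨κ, ?_⟩, ?_⟩, hκ⟩
  · funext i
    apply huniq i
    rw [← hκ]
    simp
  · intro σ τ
    funext i
    apply huniq i
    rw [← hκ, AlgEquiv.mul_apply, hκ τ i, map_mul, AlgEquiv.commutes, hκ σ i, Pi.mul_apply]
    push_cast
    rw [← mul_assoc]
    congr 1
    exact mul_comm _ _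

theorem kap_inj {q k : ℕ} {b : Fin k → H}
    (hgen : IntermediateField.adjoin F (Set.range b) = ⊤)
    {κ : (H ≃ₐ[F] H) →* (Fin k → rootsOfUnity q F)}
    (hκ : ∀ (σ : H ≃ₐ[F] H) (i : Fin k), σ (b i) = algebraMap F H ((κ σ i : Fˣ) : F) * b i) :
    Function.Injective κ := by
  rw [injective_iff_map_eq_one]
  intro σ hσ
  have h1 : ∀ i, σ (b i) = b i := by
    intro i
    rw [hκ, hσ]
    simp
  have h2 : IntermediateField.adjoin F (Set.range b) ≤
      IntermediateField.fixedField (Subgroup.zpowers σ) := by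
    rw [IntermediateField.adjoin_le_iff]
    rintro _ ⟨i, rfl⟩
    rw [SetLike.mem_coe, IntermediateField.mem_fixedField_iff]
    intro τ hτ
    obtain ⟨n, rfl⟩ := Subgroup.mem_zpowers_iff.1 hτ
    have h3 : σ ∈ MulAction.stabilizer (H ≃ₐ[F] H) (b i) := by
      rw [MulAction.mem_stabilizer_iff]
      exact h1 i
    exact (MulAction.stabilizer (H ≃ₐ[F] H) (b i)).zpow_mem h3 n
  ext x
  have h3 : x ∈ IntermediateField.fixedField (Subgroup.zpowers σ) :=
    h2 (hgen ▸ IntermediateField.mem_top)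
  rw [IntermediateField.mem_fixedField_iff] at h3
  exact h3 σ (Subgroup.mem_zpowers σ)

end Roots

end Pool.Agent.KR
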