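import Pool.Agent.Lib_helper17.HM.Fin

/-!
# Rubin's conjecture for `p`-extensions with many places that do not split completely
-/

set_option autoImplicit false
set_option linter.unusedSectionVars false

namespace Pool.Agent.KR

open Pool.Agent Pool.Agent.RSK Pool.Agent.RS3 Pool.Agent.SY Pool.Agent.CR Pool.Agent.HM NumberField
  IsDedekindDomain

section

variable {F H : Type} [Field F] [NumberField F] [Field H] [NumberField H] [Algebra F H]
  {G : Type} [CommGroup G] [Fintype G]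

/-- the multiples of `#G` -/
theorem mem_admE_card (ι : G ≃* (H ≃ₐ[F] H)) (S : Finset (HeightOneSpectrum (𝓞 F))) {r : ℕ}
    (w : Fin r → Pl H) {a : MonoidAlgebra ℤ G} (ha : ((Nat.card G : ℕ) : MonoidAlgebra ℤ G) ∣ a) :
    a ∈ admE ι S w := by
  intro q hq
  obtain ⟨c, rfl⟩ := ha
  have hG : Nat.card G ≠ 0 := Nat.card_pos.ne'
  refine ⟨(Nat.card G).factorization q, 0, 1, Or.inl ?_, ?_,
    ((Nat.card G / q ^ (Nat.card G).factorization q : ℕ) : MonoidAlgebra ℤ G) * c, ?_, ?_⟩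
  · exact Nat.pow_succ_factorization_not_dvd hG hq
  · intro h
    exact hq.one_lt.ne' (Nat.dvd_one.1 h)
  · rw [pow_zero, Ideal.one_eq_top]
    trivial
  · rw [Nat.cast_one, one_mul, ← mul_assoc]
    congr 1
    rw [← Nat.cast_pow, ← Nat.cast_mul, Nat.ordProj_mul_ordCompl_eq_self]

theorem one_mem_admE (ι : G ≃* (H ≃ₐ[F] H)) (S : Finset (HeightOneSpectrum (𝓞 F))) {r : ℕ}
    (w : Fin r → Pl H) {p : ℕ} (hp : p.Prime) (hG : IsPGroup p G)
    (hS : r + 1 + mQ p G ≤ Fintype.card (InfinitePlace F) + S.card) :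
    1 ∈ admE ι S w := by
  intro q hq
  refine ⟨0, 0, 1, ?_, ?_, 1, ?_, ?_⟩
  · have hpf : Fact p.Prime := ⟨hp⟩
    obtain ⟨e, he⟩ := IsPGroup.iff_card.1 hG
    by_cases hqp : q = p
    · subst hqp
      refine Or.inr (Or.inr (Or.inl ⟨by simpa using hS, fun M hM _ hM2 => ?_⟩))
      exfalso
      have h1 : M.index ∣ q ^ e := he ▸ M.index_dvd_card
      obtain ⟨j, -, hj⟩ := (Nat.dvd_prime_pow hp).1 h1
      rcases Nat.eq_zero_or_pos j with h0 | h0
      · rw [h0, pow_zero] at hj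
        exact hM (Subgroup.index_eq_one.1 hj)
      · exact hM2 (hj ▸ dvd_pow_self q h0.ne')
    · refine Or.inl fun h => hqp ?_
      rw [zero_add, pow_one, he] at h
      exact (Nat.prime_dvd_prime_iff_eq hq hp).1 (hq.dvd_of_dvd_pow h)
  · intro h
    exact hq.one_lt.ne' (Nat.dvd_one.1 h)
  · rw [pow_zero, Ideal.one_eq_top]
    trivial
  · rw [Nat.cast_one, pow_zero, one_mul]

theorem rubinOn_mono {J J' : Set (MonoidAlgebra ℤ G)} {ι : G ≃* (H ≃ₐ[F] H)}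
    {S T : Finset (HeightOneSpectrum (𝓞 F))} {r : ℕ} {w : Fin r → Pl H}
    {fr : HeightOneSpectrum (𝓞 F) → G} (h : CRF.RubinOn J ι S T w fr) (hJ : J' ⊆ J) :
    CRF.RubinOn J' ι S T w fr := by
  obtain ⟨c, Θ, hL, hΘ, M, i1, i2, e, l, hM, u, h1, h2, h3⟩ := h
  exact ⟨c, Θ, hL, hΘ, M, i1, i2, e, l, hM, u, ⟨h1, h2, fun a ha => h3 a (hJ ha)⟩⟩

theorem rubin_of_on {J : Set (MonoidAlgebra ℤ G)} {ι : G ≃* (H ≃ₐ[F] H)}
    {S T : Finset (HeightOneSpectrum (𝓞 F))} {r : ℕ} {w : Fin r → Pl H}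
    {fr : HeightOneSpectrum (𝓞 F) → G} (h : CRF.RubinOn J ι S T w fr) (hJ : 1 ∈ J) :
    Rubin ι S T w fr := by
  obtain ⟨c, Θ, hL, hΘ, M, i1, i2, e, l, hM, u, h1, h2, h3⟩ := h
  refine ⟨c, Θ, hL, hΘ, M, i1, i2, e, l, hM, u, ⟨fun ψ => ?_, h1, h2⟩⟩
  have := h3 1 hJ ψ
  rwa [one_smul] at this

end

section

variable {F H : Type} [Field F] [NumberField F] [Field H] [NumberField H] [Algebra F H]
  [IsGalois F H] {G : Type} [CommGroup G] [Fintype G]

theorem gen (ι : G ≃* (H ≃ₐ[F] H)) (S T : Finset (HeightOneSpectrum (𝓞 F))) {r : ℕ}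
    (w : Fin r → Pl H) (fr : HeightOneSpectrum (𝓞 F) → G) (hD : Data ι S T r w fr)
    (h : HolAll ι) : CRF.RubinOn {a | ((Nat.card G : ℕ) : MonoidAlgebra ℤ G) ∣ a} ι S T w fr ∧
      ∀ p : ℕ, p.Prime → IsPGroup p G →
        r + 1 + mQ p G ≤ Fintype.card (InfinitePlace F) + S.card → Rubin ι S T w fr :=
  ⟨rubinOn_mono (HM.fin ι S T w fr hD h) fun _ ha => mem_admE_card ι S w ha,
    fun _ hp hG hS => rubin_of_on (HM.fin ι S T w fr hD h) (one_mem_admE ι S w hp hG hS)⟩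

end

end Pool.Agent.KR
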