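import Pool.Agent.Lib_helper17.RS.P_UP3
import Pool.Agent.Lib_helper17.RS.Stmt
import Mathlib

/-!
# Valuations of integers in cyclotomic fields and of their roots
-/

set_option autoImplicit false
set_option linter.unusedSectionVars false

namespace Pool.Agent.KR

open Pool.Agent.RSK NumberField IsDedekindDomain
open scoped Pointwise

section A

variable {F : Type} [Field F] [NumberField F]

theorem ordv_int_zero {v : HeightOneSpectrum (𝓞 F)} {l : ℕ} (hl : l.Prime)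
    (hv : ((l : ℕ) : 𝓞 F) ∈ v.asIdeal) {n : ℤ} (hn : ¬ (l : ℤ) ∣ n) : ordv v ((n : ℤ) : F) = 0 := by
  have h1 : ((n : ℤ) : 𝓞 F) ∉ v.asIdeal := by
    intro h
    have h2 : IsCoprime (l : ℤ) n :=
      (Prime.coprime_iff_not_dvd (Nat.prime_iff_prime_int.1 hl)).2 hn
    obtain ⟨a, b, hab⟩ := h2
    apply v.isPrime.ne_top
    rw [Ideal.eq_top_iff_one]
    have h3 : ((a * l + b * n : ℤ) : 𝓞 F) ∈ v.asIdeal := by
      push_cast
      exact v.asIdeal.add_mem (v.asIdeal.mul_mem_left _ hv) (v.asIdeal.mul_mem_left _ h)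
    rw [hab] at h3
    simpa using h3
  have h2 : v.valuation F ((n : ℤ) : F) = 1 := by
    have := (HeightOneSpectrum.valuation_eq_one_iff_notMem (K := F) v
      (r := ((n : ℤ) : 𝓞 F))).2 h1
    simpa using this
  unfold ordv
  rw [h2]
  simp

theorem ordv_prime {q : ℕ} [NeZero q] [IsCyclotomicExtension {q} ℚ F] {v : HeightOneSpectrum (𝓞 F)}
    {l : ℕ} (hl : l.Prime) (hq : ¬ l ∣ q) (hv : ((l : ℕ) : 𝓞 F) ∈ v.asIdeal) :
    ordv v ((l : ℕ) : F) = 1 := by
  have hlf : Fact l.Prime := ⟨hl⟩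
  have hl0 : (l : ℤ) ≠ 0 := by exact_mod_cast hl.ne_zero
  have hprime : (Ideal.span {(l : ℤ)}).IsPrime :=
    (Ideal.span_singleton_prime hl0).2 (Nat.prime_iff_prime_int.1 hl)
  let p : HeightOneSpectrum ℤ := ⟨Ideal.span {(l : ℤ)}, hprime, by
    simpa using hl0⟩
  have hmax : p.asIdeal.IsMaximal := p.isMaximal
  have hlo : v.asIdeal.LiesOver p.asIdeal := by
    constructor
    have hle : p.asIdeal ≤ v.asIdeal.under ℤ := by
      show Ideal.span {(l : ℤ)} ≤ _
      rw [Ideal.span_singleton_le_iff_mem]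
      show algebraMap ℤ (𝓞 F) (l : ℤ) ∈ v.asIdeal
      simpa using hv
    have hne : v.asIdeal.under ℤ ≠ ⊤ := by
      have := v.isPrime
      exact Ideal.IsPrime.ne_top inferInstance
    exact hmax.eq_of_le hne hle
  have hlo' : v.asIdeal.LiesOver (Ideal.span {(l : ℤ)}) := hlo
  have : v.asIdeal.IsPrime := v.isPrime
  have he : v.asIdeal.ramificationIdx ℤ = 1 :=
    IsCyclotomicExtension.Rat.ramificationIdx_eq_of_not_dvd (m := q) l F v.asIdeal hq
  have h1 := HeightOneSpectrum.intValuation_liesOver (A := ℤ) (B := 𝓞 F) p v (l : ℤ)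
  rw [Ideal.ramificationIdx'_eq_ramificationIdx _ _ p.ne_bot, he, pow_one,
    HeightOneSpectrum.intValuation_singleton p hl0 rfl] at h1
  have h2 : v.valuation F ((l : ℕ) : F) = WithZero.exp (-1 : ℤ) := by
    have h3 := HeightOneSpectrum.valuation_of_algebraMap (K := F) v ((l : ℕ) : 𝓞 F)
    have h4 : (algebraMap ℤ (𝓞 F)) (l : ℤ) = ((l : ℕ) : 𝓞 F) := by simp
    rw [h4] at h1
    rw [← h1] at h3
    simpa using h3
  unfold ordv
  rw [h2]
  simp

theorem ordv_one_of {q : ℕ} [NeZero q] [IsCyclotomicExtension {q} ℚ F]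
    {v : HeightOneSpectrum (𝓞 F)} {l : ℕ} (hl : l.Prime) (hq : ¬ l ∣ q)
    (hv : ((l : ℕ) : 𝓞 F) ∈ v.asIdeal) {a : ℤ} (ha : (l : ℤ) ∣ a) (ha2 : ¬ (l : ℤ) ^ 2 ∣ a) :
    ordv v ((a : ℤ) : F) = 1 := by
  obtain ⟨b, rfl⟩ := ha
  have hb : ¬ (l : ℤ) ∣ b := by
    intro h
    apply ha2
    rw [sq]
    exact mul_dvd_mul_left _ h
  have hl0 : ((l : ℕ) : F) ≠ 0 := by exact_mod_cast hl.ne_zero
  have hb0 : ((b : ℤ) : F) ≠ 0 := by
    intro h
    apply hb
    rw [Int.cast_eq_zero] at h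
    rw [h]
    exact dvd_zero _
  have h1 := ordv_mul v (Units.mk0 _ hl0) (Units.mk0 _ hb0)
  rw [Units.val_mul, Units.val_mk0, Units.val_mk0, ordv_prime hl hq hv,
    ordv_int_zero hl hv hb, add_zero] at h1
  rw [← h1]
  push_cast
  rfl

theorem ordv_pow (v : HeightOneSpectrum (𝓞 F)) {x : F} (hx : x ≠ 0) (n : ℕ) :
    ordv v (x ^ n) = n * ordv v x := by
  induction n with
  | zero => simp [ordv_one]
  | succ n ih =>
    have h := ordv_mul v (Units.mk0 (x ^ n) (pow_ne_zero n hx)) (Units.mk0 x hx)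
    rw [Units.val_mul, Units.val_mk0, Units.val_mk0] at h
    rw [pow_succ, h, ih]
    push_cast
    ring

theorem exists_above (F : Type) [Field F] [NumberField F] {l : ℕ} (hl : l.Prime) :
    ∃ v : HeightOneSpectrum (𝓞 F), ((l : ℕ) : 𝓞 F) ∈ v.asIdeal := by
  have h1 : ¬ IsUnit ((l : ℕ) : 𝓞 F) := by
    intro h
    have h2 : IsUnit (l : ℤ) := by
      have : IsIntegrallyClosed ℤ := inferInstance
      have h3 : IsUnit (algebraMap ℤ (𝓞 F) (l : ℤ)) := by simpa using h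
      exact (IsUnit.of_map (algebraMap ℤ (𝓞 F)) (l : ℤ) h3)
    exact (Nat.prime_iff_prime_int.1 hl).not_isUnit h2
  obtain ⟨M, hM, hlM⟩ := exists_max_ideal_of_mem_nonunits (mem_nonunits_iff.2 h1)
  refine ⟨⟨M, hM.isPrime, ?_⟩, hlM⟩
  rintro rfl
  rw [Ideal.mem_bot] at hlM
  have : ((l : ℕ) : 𝓞 F) ≠ 0 := by exact_mod_cast hl.ne_zero
  exact this hlM

end A

section B

variable {F H : Type} [Field F] [NumberField F] [Field H] [NumberField H] [Algebra F H]

/-- no unramified place has a `q`-th root of an element of valuation one -/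
theorem root_ram {q : ℕ} (hq : 2 ≤ q) {W : HeightOneSpectrum (𝓞 H)} {a : F} {b : H}
    (hb : b ^ q = algebraMap F H a) (ha : ordv (W.under (𝓞 F)) a = 1) :
    ¬ Algebra.IsUnramifiedAt (𝓞 F) W.asIdeal := by
  intro h
  have h1 := ordv_unr h a
  have hb0 : b ≠ 0 := by
    rintro rfl
    rw [zero_pow (by omega)] at hb
    have ha0 : a = 0 := by
      have := (algebraMap F H).injective (hb.symm.trans (map_zero _).symm)
      exact this
    rw [ha0] at ha
    simp [ordv] at ha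
  rw [← hb, ordv_pow W hb0, ha] at h1
  have h2 : (q : ℤ) ∣ 1 := ⟨_, h1.symm⟩
  have h3 : q ∣ 1 := by exact_mod_cast h2
  have := Nat.le_of_dvd one_pos h3
  omega

/-- a place with trivial decomposition group is unramified -/
theorem unr_of_split [IsGalois F H] {W : HeightOneSpectrum (𝓞 H)}
    (h : ∀ σ : H ≃ₐ[F] H, act σ (Sum.inr W : Pl H) = Sum.inr W → σ = 1) :
    Algebra.IsUnramifiedAt (𝓞 F) W.asIdeal := by
  classical
  have : W.asIdeal.LiesOver (W.under (𝓞 F)).asIdeal := ⟨rfl⟩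
  have hWm := W.isMaximal
  have hWp := W.isPrime
  have hvm := (W.under (𝓞 F)).isMaximal
  have hst := Ideal.card_stabilizer_eq (G := (H ≃ₐ[F] H)) (W.under (𝓞 F)).asIdeal W.asIdeal
  have h1 : Nat.card (MulAction.stabilizer (H ≃ₐ[F] H) W.asIdeal) = 1 := by
    rw [Nat.card_eq_one_iff_unique]
    refine ⟨⟨fun σ τ => ?_⟩, ⟨1⟩⟩
    have key : ∀ σ : MulAction.stabilizer (H ≃ₐ[F] H) W.asIdeal, (σ : H ≃ₐ[F] H) = 1 := by
      intro σ
      apply h
      show (Sum.inr (HeightOneSpectrum.equivOfRingEquiv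
        (RingOfIntegers.mapRingEquiv (σ : H ≃ₐ[F] H).toRingEquiv) W) : Pl H) = Sum.inr W
      congr 1
      apply HeightOneSpectrum.ext
      have hσ := σ.2
      rw [MulAction.mem_stabilizer_iff] at hσ
      conv_rhs => rw [← hσ]
      ext x
      have e1 : x ∈ (σ : H ≃ₐ[F] H) • W.asIdeal ↔ (σ : H ≃ₐ[F] H)⁻¹ • x ∈ W.asIdeal := by
        have := Ideal.mem_inv_pointwise_smul_iff (a := (σ : H ≃ₐ[F] H)⁻¹) (S := W.asIdeal) (x := x)
        rwa [inv_inv] at this
      rw [e1]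
      exact Iff.rfl
    exact Subtype.ext ((key σ).trans (key τ).symm)
  rw [h1] at hst
  have h2 : (W.under (𝓞 F)).asIdeal.ramificationIdxIn (𝓞 H) = 1 := by
    exact Nat.dvd_one.1 ⟨_, hst⟩
  rw [Ideal.ramificationIdxIn_eq_ramificationIdx (W.under (𝓞 F)).asIdeal W.asIdeal
    (H ≃ₐ[F] H)] at h2
  rwa [← Ideal.ramificationIdx_eq_one_iff]

end B

end Pool.Agent.KR
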